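import Pool.Agent.MX.A.Defs
import Pool.Agent.MD.A.Cls

/-!
# MX/A-Cls: the classes `h * cl e p k`
-/

namespace Pool.Agent.MX

open Pool.Agent.QD Pool.Agent.QD.SysD Pool.Agent.LD Pool.Agent.MD

variable {S : SysD} {H : Subgroup S.G} {Kn : Set S.G} {M0 : S.G → ℂ → ℂ} {κ : Type} [Fintype κ]
  [DecidableEq κ] {e p : κ → S.G} {q : κ → ℕ} {lam : κ → ℝ} {ty : κ → Ty}

theorem cl_injT (hL : IsLocT S H Kn M0 e p q lam ty) {k k' : κ → LC} {h : S.G} (hh : h ∈ H)
    (hk : cl e p k = h * cl e p k') : k = k' := by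
  have h1 : cl e p (fun i => xr (k i) (k' i)) = h := by
    rw [← cl_mul hL.ex2, hk, mul_assoc, hL.ex2, mul_one]
  have h2 := hL.inj _ (h1 ▸ hh)
  funext i
  have h3 := congrFun h2 i
  have h4 : xr (k i) (k' i) = (false, false) := h3
  generalize k i = a at h4 ⊢
  generalize k' i = b at h4 ⊢
  revert h4
  revert a b
  unfold xr
  decide

open Classical in
theorem sum_decT (hL : IsLocT S H Kn M0 e p q lam ty) (F : S.G → ℂ) :
    ∑ c : S.G, F c = ∑ h : S.G, if h ∈ H then ∑ k : κ → LC, F (h * cl e p k) else 0 := by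
  rw [← Finset.sum_filter, Finset.sum_sigma' , eq_comm]
  refine Finset.sum_bij (fun x _ => x.1 * cl e p x.2) (fun _ _ => Finset.mem_univ _) ?_ ?_
    (fun _ _ => rfl)
  · rintro ⟨h, k⟩ hx ⟨h', k'⟩ hx' hxx
    have e1 : h ∈ H := by simpa using hx
    have e2 : h' ∈ H := by simpa using hx'
    have e3 : h * cl e p k = h' * cl e p k' := hxx
    have e4 : cl e p k = h⁻¹ * h' * cl e p k' := by
      rw [mul_assoc, ← e3, inv_mul_cancel_left]
    have e5 : k = k' := cl_injT hL (H.mul_mem (H.inv_mem e1) e2) e4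
    subst e5
    have e6 : h = h' := mul_right_cancel e3
    subst e6
    rfl
  · intro c _
    obtain ⟨h, hh, k, hc⟩ := hL.dec c
    exact ⟨⟨h, k⟩, by simpa using hh, hc.symm⟩

theorem okc_pr (τ : Ty) (f : Bool) : okc τ (pr τ f) := by
  cases τ <;> cases f <;> simp [okc, pr]

theorem pr_ne (τ : Ty) (f : Bool) : pr τ f ≠ (true, true) := by
  cases τ <;> cases f <;> simp [pr]

/-- the known classes -/
theorem kn_pr (hL : IsLocT S H Kn M0 e p q lam ty) {g : S.G} (hg : g ∈ H) (f : κ → Bool) :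
    (g * cl e p fun i => pr (ty i) (f i)) ∈ Kn := by
  rw [hL.Kn_iff g hg]
  exact fun i => okc_pr (ty i) (f i)

/-- a sum over all choices of one of the two classes at every place -/
theorem coefT (hL : IsLocT S H Kn M0 e p q lam ty) {g h : S.G} (hg : g ∈ H) (hh : h ∈ H)
    (k : κ → LC) {w : ℂ} (hw : w.re < 0) (x y : κ → ℂ) :
    ∑ f : κ → Bool, (∏ i, if f i then x i else y i) *
      S.M (g * (cl e p fun i => pr (ty i) (f i)) * (h * cl e p k)) w =
    M0 (g * h) w * ∏ i, (x i * mloc (q i) (xr (pr (ty i) true) (k i)) w +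
      y i * mloc (q i) (xr (pr (ty i) false) (k i)) w) := by
  have h1 : ∀ f : κ → Bool, (∏ i, if f i then x i else y i) *
      S.M (g * (cl e p fun i => pr (ty i) (f i)) * (h * cl e p k)) w =
      M0 (g * h) w * ∏ i, ((if f i then x i else y i) *
        mloc (q i) (xr (pr (ty i) (f i)) (k i)) w) := by
    intro f
    have h2 : g * (cl e p fun i => pr (ty i) (f i)) * (h * cl e p k) =
        g * h * cl e p (fun i => xr (pr (ty i) (f i)) (k i)) := by
      rw [mul_mul_mul_comm, cl_mul hL.ex2]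
    rw [h2, hL.M_fac (g * h) (H.mul_mem hg hh) _ w hw, Finset.prod_mul_distrib]
    ring
  have h3 : ∀ i : κ, ∑ b : Bool, ((if b then x i else y i) *
      mloc (q i) (xr (pr (ty i) b) (k i)) w) = x i * mloc (q i) (xr (pr (ty i) true) (k i)) w +
      y i * mloc (q i) (xr (pr (ty i) false) (k i)) w := by
    intro i
    rw [Fintype.sum_bool]
    simp
  rw [Finset.sum_congr rfl fun f _ => h1 f, ← Finset.mul_sum]
  congr 1
  rw [← Finset.prod_congr rfl fun i _ => h3 i]
  rw [Finset.prod_univ_sum, Fintype.piFinset_univ]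

/-- the coefficients of the forbidden classes vanish -/
theorem cx_zero (τ : Ty) (q : ℕ) (k : LC) (hk : ¬ okc τ k) (w : ℂ) :
    cx τ q true w * mloc q (xr (pr τ true) k) w +
      cx τ q false w * mloc q (xr (pr τ false) k) w = 0 := by
  obtain ⟨a, b⟩ := k
  cases τ <;> cases a <;> cases b <;> simp [okc, pr, cx, xr, mloc] at hk ⊢ <;> ring

end Pool.Agent.MX
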