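import Pool.Agent.MD.A.YC
import Pool.Agent.MD.A.Gqc
import Pool.Agent.MD.A.Nu
import Pool.Agent.MD.A.Wf

/-!
# MX/A, the abstract system with auxiliary places of three types: definitions

At every place of a finite set `V` one of the three types of decomposition in a quadratic extension is
FORBIDDEN: type `s`: split is forbidden, type `r`: ramified is forbidden, type `i`: inert is forbidden.
This generalises MD/A (all places of type `s`).  See `md_paper.md`.
-/

namespace Pool.Agent.MX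

open Pool.Agent.QD Pool.Agent.QD.SysD Pool.Agent.LD Pool.Agent.MD
open Pool.Agent.HWR (FinOrd)

/-- the forbidden type: split, ramified, inert -/
inductive Ty
  | s
  | r
  | i
deriving DecidableEq

/-- the two local classes which are used at a place of the given type -/
def pr : Ty → Bool → LC
  | .s, true => (true, false)
  | .s, false => (false, true)
  | .r, true => (true, false)
  | .r, false => (false, false)
  | .i, true => (false, false)
  | .i, false => (false, true)

/-- the allowed local classes -/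
def okc : Ty → LC → Prop
  | .s, k => k ≠ (false, false)
  | .r, k => k.2 = false
  | .i, k => k ≠ (true, false)

/-- the coefficients of the combination -/
noncomputable def cx (τ : Ty) (q : ℕ) (f : Bool) (w : ℂ) : ℂ :=
  match τ with
  | .r => if f then 1 else -1
  | _ => if f then r2 q w else -r1 q w

/-- the factors in the relations between the `GG (h * cl k)`: denominators -/
noncomputable def gd (q : ℕ) (lam : ℝ) (k : LC) (s : ℂ) : ℂ :=
  if k.2 then 1 else if k.1 then ka q lam s else ka q (-lam) s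

/-- the factors in the relations between the `GG (h * cl k)`: numerators -/
noncomputable def gn (q : ℕ) (lam : ℝ) (k : LC) (s : ℂ) : ℂ :=
  if k.2 then 1 else if k.1 then kb q lam s else kb q (-lam) s

open Classical in
/-- The local structure at the auxiliary places (compare `MD.IsLocs`): `ty i` is the type of the place `i`. -/
structure IsLocT (S : SysD) (H : Subgroup S.G) (Kn : Set S.G) (M0 : S.G → ℂ → ℂ) {κ : Type}
    [Fintype κ] (e p : κ → S.G) (q : κ → ℕ) (lam : κ → ℝ) (ty : κ → Ty) : Prop where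
  hq : ∀ i, 101 ≤ q i
  hl : ∀ i, |lam i| ≤ 2 * Real.sqrt (q i)
  ex2 : ∀ g : S.G, g * g = 1
  dec : ∀ c : S.G, ∃ h ∈ H, ∃ k : κ → LC, c = h * cl e p k
  inj : ∀ k : κ → LC, cl e p k ∈ H → k = fun _ => (false, false)
  Kn_iff : ∀ h ∈ H, ∀ k : κ → LC, h * cl e p k ∈ Kn ↔ ∀ i, okc (ty i) (k i)
  M_fac : ∀ h ∈ H, ∀ (k : κ → LC) (w : ℂ), w.re < 0 →
    S.M (h * cl e p k) w = M0 h w * ∏ i, mloc (q i) (k i) w
  /-- the matrix `M0 (g h) (g, h ∈ H)` is invertible up to a polynomial -/
  M_inv : ∀ X : ℝ, 0 < X → ∃ (P : Polynomial ℂ) (Nf : S.G → ℂ → ℂ), P ≠ 0 ∧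
    (∀ g, DifferentiableOn ℂ (Nf g) {w : ℂ | -X < w.re ∧ w.re < 0}) ∧
    (∀ (g : S.G) (a b : ℝ), -X < a → b < 0 → ∃ A C : ℝ, 0 ≤ A ∧ 0 ≤ C ∧ ∀ w : ℂ, a ≤ w.re →
      w.re ≤ b → ‖Nf g w‖ ≤ C * (1 + |w.im|) ^ A) ∧
    ∀ h ∈ H, ∀ w : ℂ, -X < w.re → w.re < 0 →
      ∑ g : S.G, (if g ∈ H then Nf g w * M0 (g * h) w else 0) = if h = 1 then P.eval w else 0
  GG_rel : ∀ h ∈ H, ∀ (k : κ → LC), (∀ i, k i ≠ (true, true)) → ∀ s : ℂ, s.re < 1 / 2 →
    S.GG (h * cl e p k) s * (∏ i, gd (q i) (lam i) (k i) s) =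
      S.GG (h * cl e p fun _ => (false, true)) s * (∏ i, gn (q i) (lam i) (k i) s)
  sep : ∀ k : κ → LC, k ≠ (fun _ => (false, false)) → ∀ b : S.J, S.R b (cl e p k) →
    101 * ∏ i, q i ≤ S.nJ b

/-- the coefficients at the reflected point -/
noncomputable def tht (τ : Ty) (q : ℕ) (lam : ℝ) (f : Bool) (s t : ℂ) : ℂ :=
  cx τ q f (wp s t) * gn q lam (pr τ f) (2 - s) * gd q lam (pr τ (!f)) (2 - s)

/-- the normalising factor -/
noncomputable def ndt (τ : Ty) (q : ℕ) (s t : ℂ) : ℂ :=
  match τ with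
  | .s => nd q s * (q : ℂ) ^ t
  | .r => 2 * (Real.sqrt q : ℂ) * (q : ℂ) ^ (4 * s - 3)
  | .i => -2 * ((q : ℂ) ^ t * (q : ℂ) ^ (3 * s - 7 / 2))

/-- the limit of the local factor of the trivial class -/
noncomputable def LamT (τ : Ty) (q : ℕ) (lam : ℝ) (t : ℂ) : ℂ :=
  match τ with
  | .s => Lam q lam t
  | _ => 1

/-- the local factor of the class `k` -/
noncomputable def nut (τ : Ty) (q : ℕ) (lam : ℝ) (k : LC) (s t : ℂ) : ℂ :=
  match τ with
  | .s => nu q lam k s t
  | _ => (ndt τ q s t)⁻¹ * (tht τ q lam true s t * mloc q (xr (pr τ true) k) (ww s t) +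
      tht τ q lam false s t * mloc q (xr (pr τ false) k) (ww s t))

end Pool.Agent.MX
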