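import Pool.Agent.MX.A.NuA

/-!
# MX/A-NuC: the local factors are bounded by `C q^(Re s)`
-/

namespace Pool.Agent.MX

open Pool.Agent.QD Pool.Agent.QD.SysD Pool.Agent.LD Pool.Agent.MD

private theorem nuc_norm {q : ℕ} (hq : 101 ≤ q) (z : ℂ) : ‖(q : ℂ) ^ z‖ = (q : ℝ) ^ z.re :=
  Complex.norm_natCast_cpow_of_pos (by omega) z

/-- the small power -/
private theorem nuc_small {q : ℕ} (hq : 101 ≤ q) {w : ℂ} (hw : w.re < 0) :
    ‖(q : ℂ) ^ (w - 1 / 2)‖ ≤ 1 / 2 ∧ ‖(q : ℂ) ^ (w - 3 / 2)‖ ≤ 1 := by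
  have hqr : (101 : ℝ) ≤ q := by exact_mod_cast hq
  constructor
  · rw [nuc_norm hq]
    have h1 : (w - 1 / 2).re ≤ -(1 / 2 : ℝ) := by
      rw [Complex.sub_re]
      norm_num
      linarith
    have h2 : (q : ℝ) ^ (w - 1 / 2).re ≤ (q : ℝ) ^ (-(1 / 2 : ℝ)) :=
      Real.rpow_le_rpow_of_exponent_le (by linarith) h1
    refine h2.trans ?_
    rw [Real.rpow_neg (by linarith), ← Real.sqrt_eq_rpow]
    have h3 : 2 ≤ Real.sqrt q := Real.le_sqrt_of_sq_le (by linarith)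
    rw [← one_div]
    exact one_div_le_one_div_of_le (by norm_num) h3
  · rw [nuc_norm hq]
    refine Real.rpow_le_one_of_one_le_of_nonpos (by linarith) ?_
    rw [Complex.sub_re]
    norm_num
    linarith

private theorem nuc_ne {q : ℕ} (hq : 101 ≤ q) {w : ℂ} (hw : w.re < 0) :
    ‖(1 - (q : ℂ) ^ (w - 1 / 2))⁻¹‖ ≤ 2 := by
  have h1 := (nuc_small hq hw).1
  have h2 : 1 / 2 ≤ ‖1 - (q : ℂ) ^ (w - 1 / 2)‖ := by
    have h3 := norm_sub_norm_le (1 : ℂ) ((q : ℂ) ^ (w - 1 / 2))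
    rw [norm_one] at h3
    linarith
  rw [norm_inv]
  have h4 := inv_anti₀ (by norm_num : (0 : ℝ) < 1 / 2) h2
  have h5 : ((1 : ℝ) / 2)⁻¹ = 2 := by norm_num
  rw [h5] at h4
  exact h4

private theorem nuc_mbd {q : ℕ} (hq : 101 ≤ q) (k : LC) {w : ℂ} (hw : w.re < 0) :
    ‖mloc q k w‖ ≤ 8 * Real.sqrt q := by
  have hqr : (101 : ℝ) ≤ q := by exact_mod_cast hq
  have hs1 : 1 ≤ Real.sqrt q := by
    rw [Real.one_le_sqrt]
    linarith
  obtain ⟨h1, h2⟩ := nuc_small hq hw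
  have hsn : ‖(Real.sqrt q : ℂ)‖ = Real.sqrt q := by
    rw [Complex.norm_real, Real.norm_of_nonneg (Real.sqrt_nonneg _)]
  have a1 : ‖1 + (q : ℂ) ^ (w - 1 / 2)‖ ≤ 2 := by
    refine (norm_add_le _ _).trans ?_
    rw [norm_one]
    linarith
  have a2 : ‖1 + (q : ℂ) ^ (w - 3 / 2)‖ ≤ 2 := by
    refine (norm_add_le _ _).trans ?_
    rw [norm_one]
    linarith
  have a3 : ‖1 - (q : ℂ) ^ (w - 3 / 2)‖ ≤ 2 := by
    refine (norm_sub_le _ _).trans ?_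
    rw [norm_one]
    linarith
  unfold mloc
  by_cases hk2 : k.2 = true
  · rw [if_pos hk2]
    unfold r2
    linarith
  · rw [if_neg hk2]
    by_cases hk1 : k.1 = true
    · rw [if_pos hk1]
      unfold r1
      rw [norm_mul, hsn]
      have : Real.sqrt q * ‖1 + (q : ℂ) ^ (w - 3 / 2)‖ ≤ Real.sqrt q * 2 :=
        mul_le_mul_of_nonneg_left a2 (Real.sqrt_nonneg _)
      linarith
    · rw [if_neg hk1]
      unfold r0
      rw [norm_neg, norm_mul, norm_mul, norm_mul, hsn]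
      calc Real.sqrt q * ‖1 - (q : ℂ) ^ (w - 3 / 2)‖ * ‖1 + (q : ℂ) ^ (w - 1 / 2)‖ *
            ‖(1 - (q : ℂ) ^ (w - 1 / 2))⁻¹‖ ≤ Real.sqrt q * 2 * 2 * 2 := by
            have := nuc_ne hq hw
            gcongr
        _ = 8 * Real.sqrt q := by ring

private theorem nuc_ww {s t : ℂ} (h : t.re + 3 < s.re) : (ww s t).re < 0 := by
  unfold ww
  rw [Complex.add_re, Complex.sub_re]
  norm_num
  linarith

private theorem nuc_comb {X D C B : ℝ} (hX : 1 ≤ X) (m : ℕ) (hD : 0 < D) (hC : 0 ≤ C) (hB : 0 ≤ B)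
    {n a b c d : ℂ} (hn : ‖n‖ = D * X ^ m) (ha : ‖a‖ ≤ C * X ^ m) (hc : ‖c‖ ≤ C * X ^ m)
    (hb : ‖b‖ ≤ B) (hd : ‖d‖ ≤ B) : ‖n⁻¹ * (a * b + c * d)‖ ≤ 2 * C * B / D * X := by
  have hXp : 0 < X := by linarith
  have h1 : ‖a * b + c * d‖ ≤ 2 * C * B * X ^ m := by
    refine (norm_add_le _ _).trans ?_
    rw [norm_mul, norm_mul]
    have h2 : ‖a‖ * ‖b‖ ≤ C * X ^ m * B := mul_le_mul ha hb (norm_nonneg _) (by positivity)
    have h3 : ‖c‖ * ‖d‖ ≤ C * X ^ m * B := mul_le_mul hc hd (norm_nonneg _) (by positivity)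
    linarith
  rw [norm_mul, norm_inv, hn]
  have h2 : (D * X ^ m)⁻¹ * ‖a * b + c * d‖ ≤ (D * X ^ m)⁻¹ * (2 * C * B * X ^ m) :=
    mul_le_mul_of_nonneg_left h1 (by positivity)
  have h3 : (D * X ^ m)⁻¹ * (2 * C * B * X ^ m) = 2 * C * B / D := by
    field_simp
  rw [h3] at h2
  refine h2.trans ?_
  exact le_mul_of_one_le_right (by positivity) hX

private theorem nuc_pow {q : ℕ} (hq : 101 ≤ q) {s z : ℂ} (hz : z.re ≤ 2 * s.re) :
    ‖(q : ℂ) ^ z‖ ≤ ((q : ℝ) ^ s.re) ^ 2 := by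
  have hqr : (101 : ℝ) ≤ q := by exact_mod_cast hq
  have hX2 : (q : ℝ) ^ (2 * s.re) = ((q : ℝ) ^ s.re) ^ 2 := by
    rw [two_mul, Real.rpow_add (by linarith), sq]
  rw [nuc_norm hq, ← hX2]
  exact Real.rpow_le_rpow_of_exponent_le (by linarith) hz

private theorem nuc_ka {q : ℕ} (hq : 101 ≤ q) (lam : ℝ) {s : ℂ} (hs : 3 ≤ s.re) :
    ‖ka q lam (2 - s)‖ ≤ (2 + |lam|) * ((q : ℝ) ^ s.re) ^ 2 := by
  have hqr : (101 : ℝ) ≤ q := by exact_mod_cast hq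
  have hX1 : (1 : ℝ) ≤ (q : ℝ) ^ s.re := Real.one_le_rpow (by linarith) (by linarith)
  have hlam : ‖(lam : ℂ)‖ = |lam| := by rw [Complex.norm_real, Real.norm_eq_abs]
  have hl0 : 0 ≤ |lam| := abs_nonneg lam
  have e1 : 1 - (2 - s) = s - 1 := by ring
  have e2 : 3 - 2 * (2 - s) = 2 * s - 1 := by ring
  unfold ka
  rw [e1, e2]
  refine (norm_add_le _ _).trans ?_
  have h1 := norm_add_le (1 : ℂ) ((lam : ℂ) * (q : ℂ) ^ (s - 1))
  rw [norm_one, norm_mul, hlam] at h1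
  have h2 := nuc_pow hq (s := s) (z := s - 1) (by
    rw [Complex.sub_re]
    norm_num
    linarith)
  have h3 := nuc_pow hq (s := s) (z := 2 * s - 1) (by
    simp only [Complex.sub_re, Complex.mul_re]
    norm_num)
  have h4 := mul_le_mul_of_nonneg_left h2 hl0
  nlinarith

private theorem nuc_kb {q : ℕ} (hq : 101 ≤ q) (lam : ℝ) {s : ℂ} (hs : 3 ≤ s.re) :
    ‖kb q lam (2 - s)‖ ≤ q * (2 + |lam|) * ((q : ℝ) ^ s.re) ^ 2 := by
  have hqr : (101 : ℝ) ≤ q := by exact_mod_cast hq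
  have hX1 : (1 : ℝ) ≤ (q : ℝ) ^ s.re := Real.one_le_rpow (by linarith) (by linarith)
  have hlam : ‖(lam : ℂ)‖ = |lam| := by rw [Complex.norm_real, Real.norm_eq_abs]
  have hl0 : 0 ≤ |lam| := abs_nonneg lam
  have e1 : -(2 - s) = s - 2 := by ring
  have e2 : 1 - 2 * (2 - s) = 2 * s - 3 := by ring
  unfold kb
  rw [e1, e2, norm_mul, Complex.norm_natCast, mul_assoc]
  refine mul_le_mul_of_nonneg_left ?_ (by linarith)
  refine (norm_add_le _ _).trans ?_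
  have h1 := norm_add_le (1 : ℂ) ((lam : ℂ) * (q : ℂ) ^ (s - 2))
  rw [norm_one, norm_mul, hlam] at h1
  have h2 := nuc_pow hq (s := s) (z := s - 2) (by
    rw [Complex.sub_re]
    norm_num
    linarith)
  have h3 := nuc_pow hq (s := s) (z := 2 * s - 3) (by
    simp only [Complex.sub_re, Complex.mul_re]
    norm_num)
  have h4 := mul_le_mul_of_nonneg_left h2 hl0
  nlinarith

private theorem nuc_r2 {q : ℕ} (hq : 101 ≤ q) {s t : ℂ} (hs : 3 ≤ s.re) :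
    ‖r2 q (wp s t)‖ ≤ (1 + (q : ℝ) ^ t.re) * (q : ℝ) ^ s.re := by
  have hqr : (101 : ℝ) ≤ q := by exact_mod_cast hq
  have hX1 : (1 : ℝ) ≤ (q : ℝ) ^ s.re := Real.one_le_rpow (by linarith) (by linarith)
  have b1 : ‖(q : ℂ) ^ (wp s t - 1 / 2)‖ ≤ (q : ℝ) ^ t.re * (q : ℝ) ^ s.re := by
    rw [nuc_norm hq, ← Real.rpow_add (by linarith)]
    refine Real.rpow_le_rpow_of_exponent_le (by linarith) ?_
    unfold wp
    simp only [Complex.sub_re, Complex.add_re]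
    norm_num
    linarith
  unfold r2
  refine (norm_add_le _ _).trans ?_
  rw [norm_one]
  linarith

private theorem nuc_r1 {q : ℕ} (hq : 101 ≤ q) {s t : ℂ} (hs : 3 ≤ s.re) :
    ‖r1 q (wp s t)‖ ≤ Real.sqrt q * (1 + (q : ℝ) ^ t.re) * (q : ℝ) ^ s.re := by
  have hqr : (101 : ℝ) ≤ q := by exact_mod_cast hq
  have hX1 : (1 : ℝ) ≤ (q : ℝ) ^ s.re := Real.one_le_rpow (by linarith) (by linarith)
  have b1 : ‖(q : ℂ) ^ (wp s t - 3 / 2)‖ ≤ (q : ℝ) ^ t.re * (q : ℝ) ^ s.re := by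
    rw [nuc_norm hq, ← Real.rpow_add (by linarith)]
    refine Real.rpow_le_rpow_of_exponent_le (by linarith) ?_
    unfold wp
    simp only [Complex.sub_re, Complex.add_re]
    norm_num
    linarith
  unfold r1
  rw [norm_mul, Complex.norm_real, Real.norm_of_nonneg (Real.sqrt_nonneg _), mul_assoc]
  refine mul_le_mul_of_nonneg_left ?_ (Real.sqrt_nonneg _)
  refine (norm_add_le _ _).trans ?_
  rw [norm_one]
  linarith

private theorem nuc_ndr {q : ℕ} (hq : 101 ≤ q) (s t : ℂ) :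
    ‖ndt Ty.r q s t‖ = 2 * Real.sqrt q * (q : ℝ) ^ (-3 : ℝ) * ((q : ℝ) ^ s.re) ^ 4 := by
  have hqr : (101 : ℝ) ≤ q := by exact_mod_cast hq
  have e : ndt Ty.r q s t = 2 * (Real.sqrt q : ℂ) * (q : ℂ) ^ (4 * s - 3) := rfl
  have e2 : (4 * s - 3).re = -3 + 4 * s.re := by
    simp only [Complex.sub_re, Complex.mul_re]
    norm_num
    ring
  rw [e, norm_mul, norm_mul, Complex.norm_real, Real.norm_of_nonneg (Real.sqrt_nonneg _),
    nuc_norm hq, e2, Real.rpow_add (by linarith), mul_comm 4 s.re, Real.rpow_mul (by linarith)]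
  have e3 : ((q : ℝ) ^ s.re) ^ (4 : ℝ) = ((q : ℝ) ^ s.re) ^ 4 := by
    exact_mod_cast Real.rpow_natCast ((q : ℝ) ^ s.re) 4
  rw [e3]
  have e4 : ‖(2 : ℂ)‖ = 2 := by norm_num
  rw [e4]
  ring

private theorem nuc_ndi {q : ℕ} (hq : 101 ≤ q) (s t : ℂ) :
    ‖ndt Ty.i q s t‖ = 2 * (q : ℝ) ^ t.re * (q : ℝ) ^ (-(7 / 2) : ℝ) * ((q : ℝ) ^ s.re) ^ 3 := by
  have hqr : (101 : ℝ) ≤ q := by exact_mod_cast hq
  have e : ndt Ty.i q s t = -2 * ((q : ℂ) ^ t * (q : ℂ) ^ (3 * s - 7 / 2)) := rfl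
  have e2 : (3 * s - 7 / 2).re = -(7 / 2) + 3 * s.re := by
    simp only [Complex.sub_re, Complex.mul_re]
    norm_num
    ring
  rw [e, norm_mul, norm_mul, nuc_norm hq, nuc_norm hq, e2, Real.rpow_add (by linarith),
    mul_comm 3 s.re, Real.rpow_mul (by linarith)]
  have e3 : ((q : ℝ) ^ s.re) ^ (3 : ℝ) = ((q : ℝ) ^ s.re) ^ 3 := by
    exact_mod_cast Real.rpow_natCast ((q : ℝ) ^ s.re) 3
  rw [e3]
  have e4 : ‖(-2 : ℂ)‖ = 2 := by
    rw [norm_neg]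
    norm_num
  rw [e4]
  ring

theorem nut_bd (τ : Ty) {q : ℕ} (hq : 101 ≤ q) (lam : ℝ) (k : LC) {t : ℂ} (ht : 0 < t.re) :
    ∃ C : ℝ, 0 ≤ C ∧ ∀ s : ℂ, t.re + 3 < s.re → ‖nut τ q lam k s t‖ ≤ C * (q : ℝ) ^ s.re := by
  have hqr : (101 : ℝ) ≤ q := by exact_mod_cast hq
  have hqp : (0 : ℝ) < q := by linarith
  have hsq : 0 < Real.sqrt q := Real.sqrt_pos.2 hqp
  cases τ
  · exact nu_bd hq lam k ht
  · refine ⟨2 * (q * (2 + |lam|) * (2 + |lam|)) * (8 * Real.sqrt q) /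
      (2 * Real.sqrt q * (q : ℝ) ^ (-3 : ℝ)), by positivity, fun s hs => ?_⟩
    have hs3 : 3 ≤ s.re := by linarith
    have hX1 : (1 : ℝ) ≤ (q : ℝ) ^ s.re := Real.one_le_rpow (by linarith) (by linarith)
    have hXp : 0 < (q : ℝ) ^ s.re := by linarith
    have ekm : (2 : ℝ) + |(-lam)| = 2 + |lam| := by rw [abs_neg]
    have a1 := nuc_ka hq lam hs3
    have a2 := nuc_ka hq (-lam) hs3
    have b1 := nuc_kb hq lam hs3
    have b2 := nuc_kb hq (-lam) hs3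
    rw [ekm] at a2 b2
    refine nuc_comb hX1 4 (by positivity) (by positivity) (by positivity) (nuc_ndr hq s t) ?_ ?_
      (nuc_mbd hq _ (nuc_ww hs)) (nuc_mbd hq _ (nuc_ww hs))
    · have e : tht Ty.r q lam true s t = 1 * kb q lam (2 - s) * ka q (-lam) (2 - s) := rfl
      rw [e, one_mul, norm_mul]
      refine (mul_le_mul b1 a2 (norm_nonneg _) (by positivity)).trans (le_of_eq ?_)
      ring
    · have e : tht Ty.r q lam false s t = -1 * kb q (-lam) (2 - s) * ka q lam (2 - s) := rfl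
      rw [e, neg_one_mul, norm_mul, norm_neg]
      refine (mul_le_mul b2 a1 (norm_nonneg _) (by positivity)).trans (le_of_eq ?_)
      ring
  · obtain ⟨Tn, hTn⟩ : ∃ Tn : ℝ, Tn = (q : ℝ) ^ t.re := ⟨_, rfl⟩
    have hTp : 0 < Tn := by
      rw [hTn]
      exact Real.rpow_pos_of_pos hqp _
    refine ⟨2 * (Real.sqrt q * q * (1 + Tn) * (2 + |lam|)) * (8 * Real.sqrt q) /
      (2 * Tn * (q : ℝ) ^ (-(7 / 2) : ℝ)), by positivity, fun s hs => ?_⟩
    have hs3 : 3 ≤ s.re := by linarith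
    have hX1 : (1 : ℝ) ≤ (q : ℝ) ^ s.re := Real.one_le_rpow (by linarith) (by linarith)
    have hXp : 0 < (q : ℝ) ^ s.re := by linarith
    have ekm : (2 : ℝ) + |(-lam)| = 2 + |lam| := by rw [abs_neg]
    have a2 := nuc_ka hq (-lam) hs3
    have b2 := nuc_kb hq (-lam) hs3
    rw [ekm] at a2 b2
    have c2 := nuc_r2 hq (t := t) hs3
    have c1 := nuc_r1 hq (t := t) hs3
    have hnd := nuc_ndi hq s t
    rw [← hTn] at c1 c2 hnd
    have hs1 : 1 ≤ Real.sqrt q := by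
      rw [Real.one_le_sqrt]
      linarith
    refine nuc_comb hX1 3 (by positivity) (by positivity) (by positivity) hnd ?_ ?_
      (nuc_mbd hq _ (nuc_ww hs)) (nuc_mbd hq _ (nuc_ww hs))
    · have e : tht Ty.i q lam true s t = r2 q (wp s t) * kb q (-lam) (2 - s) * 1 := rfl
      rw [e, mul_one, norm_mul]
      refine (mul_le_mul c2 b2 (norm_nonneg _) (by positivity)).trans ?_
      have h1 : (1 + Tn) * (q : ℝ) ^ s.re * (q * (2 + |lam|) * ((q : ℝ) ^ s.re) ^ 2) =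
          1 * (q * (1 + Tn) * (2 + |lam|) * ((q : ℝ) ^ s.re) ^ 3) := by ring
      have h2 : Real.sqrt q * q * (1 + Tn) * (2 + |lam|) * ((q : ℝ) ^ s.re) ^ 3 =
          Real.sqrt q * (q * (1 + Tn) * (2 + |lam|) * ((q : ℝ) ^ s.re) ^ 3) := by ring
      rw [h1, h2]
      exact mul_le_mul_of_nonneg_right hs1 (by positivity)
    · have e : tht Ty.i q lam false s t = -r1 q (wp s t) * 1 * ka q (-lam) (2 - s) := rfl
      rw [e, mul_one, norm_mul, norm_neg]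
      refine (mul_le_mul c1 a2 (norm_nonneg _) (by positivity)).trans ?_
      have h1 : Real.sqrt q * (1 + Tn) * (q : ℝ) ^ s.re * ((2 + |lam|) * ((q : ℝ) ^ s.re) ^ 2) =
          1 * (Real.sqrt q * (1 + Tn) * (2 + |lam|) * ((q : ℝ) ^ s.re) ^ 3) := by ring
      have h2 : Real.sqrt q * q * (1 + Tn) * (2 + |lam|) * ((q : ℝ) ^ s.re) ^ 3 =
          q * (Real.sqrt q * (1 + Tn) * (2 + |lam|) * ((q : ℝ) ^ s.re) ^ 3) := by ring
      rw [h1, h2]
      exact mul_le_mul_of_nonneg_right (by linarith) (by positivity)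

end Pool.Agent.MX
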