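import Pool.Agent.MX.A.NuA

/-!
# MX/A-NuD: the limit of the local factor of the trivial class

With `Y = q^(-s)` the local factor of the trivial class is a mean value of products of factors `1 + O(Y)`.
-/

namespace Pool.Agent.MX

open Pool.Agent.QD Pool.Agent.QD.SysD Pool.Agent.LD Pool.Agent.MD

private theorem nd_algr (Q X T l r I : ℂ) (hQ : Q ≠ 0) (hX : X ≠ 0) (hr : r ≠ 0) :
    (2 * r * (X ^ 4 / Q ^ 3))⁻¹ * (1 * (Q * (1 + l * (X / Q ^ 2) + X ^ 2 / Q ^ 3)) *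
        (1 + -l * (X / Q) + X ^ 2 / Q) * (r * (1 + T / (X * Q))) +
      -1 * (Q * (1 + -l * (X / Q ^ 2) + X ^ 2 / Q ^ 3)) * (1 + l * (X / Q) + X ^ 2 / Q) *
        (-(r * (1 - T / (X * Q)) * (1 + T / X) * I))) =
    ((1 + l * Q * X⁻¹ + Q ^ 3 * X⁻¹ ^ 2) * (1 + -l * X⁻¹ + Q * X⁻¹ ^ 2) * (1 + T / Q * X⁻¹) +
      (1 + -l * Q * X⁻¹ + Q ^ 3 * X⁻¹ ^ 2) * (1 + l * X⁻¹ + Q * X⁻¹ ^ 2) *
        ((1 + -(T / Q) * X⁻¹) * (1 + T * X⁻¹) * I)) / 2 := by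
  field_simp
  ring

private theorem nd_algi (Q X T l r I : ℂ) (hX : X ≠ 0) (hT : T ≠ 0) (hr : r ≠ 0) (hrQ : r ^ 2 = Q) :
    (-2 * (T * (X ^ 3 / (Q ^ 3 * r))))⁻¹ * ((1 + T * X / Q ^ 2) * (Q * (1 + -l * (X / Q ^ 2) +
        X ^ 2 / Q ^ 3)) * 1 * (-(r * (1 - T / (X * Q)) * (1 + T / X) * I)) +
      -(r * (1 + T * X / Q ^ 3)) * 1 * (1 + -l * (X / Q) + X ^ 2 / Q) * (1 + T / X)) =
    ((1 + Q ^ 2 / T * X⁻¹) * (1 + -l * Q * X⁻¹ + Q ^ 3 * X⁻¹ ^ 2) *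
        ((1 + -(T / Q) * X⁻¹) * (1 + T * X⁻¹) * I) +
      (1 + Q ^ 3 / T * X⁻¹) * (1 + -l * X⁻¹ + Q * X⁻¹ ^ 2) * (1 + T * X⁻¹)) / 2 := by
  rw [← hrQ]
  field_simp
  ring

/-- tends to `1` -/
private def Nr (t : ℂ) (f : ℂ → ℂ) : Prop :=
  ∃ C : ℝ, 0 ≤ C ∧ ∀ s : ℂ, t.re + 3 < s.re → ‖f s - 1‖ ≤ C * (101 : ℝ) ^ (-s.re)

private theorem nd_E {s : ℂ} (hs : 0 < s.re) : 0 < (101 : ℝ) ^ (-s.re) ∧ (101 : ℝ) ^ (-s.re) ≤ 1 :=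
  ⟨Real.rpow_pos_of_pos (by norm_num) _,
    Real.rpow_le_one_of_one_le_of_nonpos (by norm_num) (by linarith)⟩

private theorem nd_mul {t : ℂ} (ht : 0 < t.re) {f g : ℂ → ℂ} (hf : Nr t f) (hg : Nr t g) :
    Nr t (fun s => f s * g s) := by
  obtain ⟨C, hC, h1⟩ := hf
  obtain ⟨D, hD, h2⟩ := hg
  refine ⟨C * D + C + D, by positivity, fun s hs => ?_⟩
  obtain ⟨e0, e1⟩ := nd_E (s := s) (by linarith)
  have a1 := h1 s hs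
  have a2 := h2 s hs
  have e2 : f s * g s - 1 = (f s - 1) * (g s - 1) + (f s - 1) + (g s - 1) := by ring
  show ‖f s * g s - 1‖ ≤ _
  rw [e2]
  refine (norm_add_le _ _).trans ?_
  have a3 := norm_add_le ((f s - 1) * (g s - 1)) (f s - 1)
  rw [norm_mul] at a3
  have a4 : ‖f s - 1‖ * ‖g s - 1‖ ≤ (C * (101 : ℝ) ^ (-s.re)) * (D * (101 : ℝ) ^ (-s.re)) :=
    mul_le_mul a1 a2 (norm_nonneg _) (by positivity)
  have a5 : (C * (101 : ℝ) ^ (-s.re)) * (D * (101 : ℝ) ^ (-s.re)) ≤ C * D * (101 : ℝ) ^ (-s.re) := by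
    have a6 : (101 : ℝ) ^ (-s.re) * (101 : ℝ) ^ (-s.re) ≤ (101 : ℝ) ^ (-s.re) :=
      mul_le_of_le_one_right e0.le e1
    calc (C * (101 : ℝ) ^ (-s.re)) * (D * (101 : ℝ) ^ (-s.re)) =
          C * D * ((101 : ℝ) ^ (-s.re) * (101 : ℝ) ^ (-s.re)) := by ring
      _ ≤ C * D * (101 : ℝ) ^ (-s.re) := mul_le_mul_of_nonneg_left a6 (by positivity)
  calc ‖(f s - 1) * (g s - 1) + (f s - 1)‖ + ‖g s - 1‖ ≤
        C * D * (101 : ℝ) ^ (-s.re) + C * (101 : ℝ) ^ (-s.re) + D * (101 : ℝ) ^ (-s.re) := by linarith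
    _ = (C * D + C + D) * (101 : ℝ) ^ (-s.re) := by ring

private theorem nd_mean {t : ℂ} {f g : ℂ → ℂ} (hf : Nr t f) (hg : Nr t g) :
    Nr t (fun s => (f s + g s) / 2) := by
  obtain ⟨C, hC, h1⟩ := hf
  obtain ⟨D, hD, h2⟩ := hg
  refine ⟨(C + D) / 2, by positivity, fun s hs => ?_⟩
  have a1 := h1 s hs
  have a2 := h2 s hs
  have e2 : (f s + g s) / 2 - 1 = ((f s - 1) + (g s - 1)) / 2 := by ring
  show ‖(f s + g s) / 2 - 1‖ ≤ _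
  rw [e2, norm_div, Complex.norm_ofNat]
  have a3 := norm_add_le (f s - 1) (g s - 1)
  calc ‖f s - 1 + (g s - 1)‖ / 2 ≤ (C * (101 : ℝ) ^ (-s.re) + D * (101 : ℝ) ^ (-s.re)) / 2 := by
        linarith
    _ = (C + D) / 2 * (101 : ℝ) ^ (-s.re) := by ring

private theorem nd_one (t : ℂ) : Nr t (fun _ => 1) :=
  ⟨0, le_rfl, fun s _ => by simp⟩

private theorem nd_Y {q : ℕ} (hq : 101 ≤ q) {s : ℂ} (hs : 0 < s.re) :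
    ‖((q : ℂ) ^ s)⁻¹‖ ≤ (101 : ℝ) ^ (-s.re) := by
  have hqr : (101 : ℝ) ≤ q := by exact_mod_cast hq
  rw [norm_inv, Complex.norm_natCast_cpow_of_pos (by omega) s, Real.rpow_neg (by norm_num)]
  refine inv_anti₀ (Real.rpow_pos_of_pos (by norm_num) _) ?_
  exact Real.rpow_le_rpow (by norm_num) hqr hs.le

private theorem nd_add {t : ℂ} (ht : 0 < t.re) {q : ℕ} (hq : 101 ≤ q) {f : ℂ → ℂ} (hf : Nr t f) (c : ℂ) :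
    Nr t (fun s => f s + c * ((q : ℂ) ^ s)⁻¹) := by
  obtain ⟨C, hC, h1⟩ := hf
  refine ⟨C + ‖c‖, by positivity, fun s hs => ?_⟩
  have a1 := h1 s hs
  have a2 := nd_Y hq (s := s) (by linarith)
  have e2 : f s + c * ((q : ℂ) ^ s)⁻¹ - 1 = (f s - 1) + c * ((q : ℂ) ^ s)⁻¹ := by ring
  show ‖f s + c * ((q : ℂ) ^ s)⁻¹ - 1‖ ≤ _
  rw [e2]
  refine (norm_add_le _ _).trans ?_
  rw [norm_mul, add_mul]
  exact add_le_add a1 (mul_le_mul_of_nonneg_left a2 (norm_nonneg _))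

private theorem nd_add2 {t : ℂ} (ht : 0 < t.re) {q : ℕ} (hq : 101 ≤ q) {f : ℂ → ℂ} (hf : Nr t f)
    (c : ℂ) : Nr t (fun s => f s + c * ((q : ℂ) ^ s)⁻¹ ^ 2) := by
  obtain ⟨C, hC, h1⟩ := hf
  refine ⟨C + ‖c‖, by positivity, fun s hs => ?_⟩
  have a1 := h1 s hs
  have a2 := nd_Y hq (s := s) (by linarith)
  obtain ⟨e0, e1⟩ := nd_E (s := s) (by linarith)
  have e2 : f s + c * ((q : ℂ) ^ s)⁻¹ ^ 2 - 1 = (f s - 1) + c * ((q : ℂ) ^ s)⁻¹ ^ 2 := by ring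
  show ‖f s + c * ((q : ℂ) ^ s)⁻¹ ^ 2 - 1‖ ≤ _
  rw [e2]
  refine (norm_add_le _ _).trans ?_
  rw [norm_mul, add_mul, norm_pow]
  refine add_le_add a1 (mul_le_mul_of_nonneg_left ?_ (norm_nonneg _))
  have a3 : ‖((q : ℂ) ^ s)⁻¹‖ ^ 2 ≤ ((101 : ℝ) ^ (-s.re)) ^ 2 := pow_le_pow_left₀ (norm_nonneg _) a2 2
  refine a3.trans ?_
  rw [sq]
  exact mul_le_of_le_one_right e0.le e1

/-- `‖q^(t - s)‖ ≤ 1/2` -/
private theorem nd_half {t s : ℂ} {q : ℕ} (hq : 101 ≤ q) (hs : t.re + 3 < s.re) :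
    ‖(q : ℂ) ^ t * ((q : ℂ) ^ s)⁻¹‖ ≤ 1 / 2 := by
  have hqr : (101 : ℝ) ≤ q := by exact_mod_cast hq
  have hq0 : (q : ℂ) ≠ 0 := by
    have : q ≠ 0 := by omega
    exact_mod_cast this
  rw [← div_eq_mul_inv, ← Complex.cpow_sub _ _ hq0, Complex.norm_natCast_cpow_of_pos (by omega),
    Complex.sub_re]
  have h1 : (q : ℝ) ^ (t.re - s.re) ≤ (q : ℝ) ^ (-1 : ℝ) :=
    Real.rpow_le_rpow_of_exponent_le (by linarith) (by linarith)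
  refine h1.trans ?_
  rw [Real.rpow_neg_one, ← one_div]
  exact one_div_le_one_div_of_le (by norm_num) (by linarith)

private theorem nd_inv {t : ℂ} (ht : 0 < t.re) {q : ℕ} (hq : 101 ≤ q) :
    Nr t (fun s => (1 - (q : ℂ) ^ t * ((q : ℂ) ^ s)⁻¹)⁻¹) := by
  refine ⟨2 * ‖(q : ℂ) ^ t‖, by positivity, fun s hs => ?_⟩
  have a1 := nd_half hq hs
  have a2 := nd_Y hq (s := s) (by linarith)
  obtain ⟨z, hz⟩ : ∃ z : ℂ, z = (q : ℂ) ^ t * ((q : ℂ) ^ s)⁻¹ := ⟨_, rfl⟩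
  show ‖(1 - (q : ℂ) ^ t * ((q : ℂ) ^ s)⁻¹)⁻¹ - 1‖ ≤ _
  rw [← hz] at a1 ⊢
  have a3 : 1 / 2 ≤ ‖1 - z‖ := by
    have a4 := norm_sub_norm_le (1 : ℂ) z
    rw [norm_one] at a4
    linarith
  have a5 : (1 - z) ≠ 0 := norm_pos_iff.1 (by linarith)
  have a6 : (1 - z)⁻¹ - 1 = z * (1 - z)⁻¹ := by
    field_simp
    ring
  have a7 : ‖(1 - z)⁻¹‖ ≤ 2 := by
    rw [norm_inv]
    have h4 := inv_anti₀ (by norm_num : (0 : ℝ) < 1 / 2) a3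
    have h5 : ((1 : ℝ) / 2)⁻¹ = 2 := by norm_num
    rw [h5] at h4
    exact h4
  rw [a6, norm_mul]
  have a8 : ‖z‖ ≤ ‖(q : ℂ) ^ t‖ * (101 : ℝ) ^ (-s.re) := by
    rw [hz, norm_mul]
    exact mul_le_mul_of_nonneg_left a2 (norm_nonneg _)
  calc ‖z‖ * ‖(1 - z)⁻¹‖ ≤ (‖(q : ℂ) ^ t‖ * (101 : ℝ) ^ (-s.re)) * 2 :=
        mul_le_mul a8 a7 (norm_nonneg _) (by positivity)
    _ = 2 * ‖(q : ℂ) ^ t‖ * (101 : ℝ) ^ (-s.re) := by ring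

private theorem nd_sq {q : ℕ} : (Real.sqrt q : ℂ) ^ 2 = (q : ℂ) := by
  rw [← Complex.ofReal_pow, Real.sq_sqrt (Nat.cast_nonneg q), Complex.ofReal_natCast]

private theorem nd_sqrt {q : ℕ} : ((Real.sqrt q : ℝ) : ℂ) = (q : ℂ) ^ (1 / 2 : ℂ) := by
  rw [Real.sqrt_eq_rpow, Complex.ofReal_cpow (Nat.cast_nonneg q)]
  push_cast
  rfl

private theorem nd_eqr {q : ℕ} (hq : 101 ≤ q) (lam : ℝ) (s t : ℂ) :
    nut Ty.r q lam (false, false) s t =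
    ((1 + (lam : ℂ) * q * ((q : ℂ) ^ s)⁻¹ + (q : ℂ) ^ 3 * ((q : ℂ) ^ s)⁻¹ ^ 2) *
        (1 + -(lam : ℂ) * ((q : ℂ) ^ s)⁻¹ + (q : ℂ) * ((q : ℂ) ^ s)⁻¹ ^ 2) *
        (1 + (q : ℂ) ^ t / q * ((q : ℂ) ^ s)⁻¹) +
      (1 + -(lam : ℂ) * q * ((q : ℂ) ^ s)⁻¹ + (q : ℂ) ^ 3 * ((q : ℂ) ^ s)⁻¹ ^ 2) *
        (1 + (lam : ℂ) * ((q : ℂ) ^ s)⁻¹ + (q : ℂ) * ((q : ℂ) ^ s)⁻¹ ^ 2) *
        ((1 + -((q : ℂ) ^ t / q) * ((q : ℂ) ^ s)⁻¹) * (1 + (q : ℂ) ^ t * ((q : ℂ) ^ s)⁻¹) *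
          (1 - (q : ℂ) ^ t * ((q : ℂ) ^ s)⁻¹)⁻¹)) / 2 := by
  have hQ : (q : ℂ) ≠ 0 := by
    exact_mod_cast (by omega : q ≠ 0)
  have hX : (q : ℂ) ^ s ≠ 0 := Complex.cpow_ne_zero_iff.mpr (Or.inl hQ)
  have hT : (q : ℂ) ^ t ≠ 0 := Complex.cpow_ne_zero_iff.mpr (Or.inl hQ)
  have hr : (Real.sqrt q : ℂ) ≠ 0 := by
    intro h0
    have h1 := nd_sq (q := q)
    rw [h0] at h1
    exact hQ (by rw [← h1]; ring)
  have h2s : (q : ℂ) ^ (2 * s) = ((q : ℂ) ^ s) ^ 2 := by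
    rw [two_mul, Complex.cpow_add _ _ hQ, sq]
  have e1 : (q : ℂ) ^ (ww s t - 3 / 2) = (q : ℂ) ^ t / ((q : ℂ) ^ s * q) := by
    have : ww s t - 3 / 2 = t - (s + 1) := by unfold ww; ring
    rw [this, Complex.cpow_sub _ _ hQ, Complex.cpow_add _ _ hQ, Complex.cpow_one]
  have e2 : (q : ℂ) ^ (ww s t - 1 / 2) = (q : ℂ) ^ t / (q : ℂ) ^ s := by
    have : ww s t - 1 / 2 = t - s := by unfold ww; ring
    rw [this, Complex.cpow_sub _ _ hQ]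
  have e5 : (q : ℂ) ^ (-(2 - s)) = (q : ℂ) ^ s / (q : ℂ) ^ 2 := by
    have : -(2 - s) = s - 2 := by ring
    rw [this, Complex.cpow_sub _ _ hQ, Complex.cpow_ofNat]
  have e6 : (q : ℂ) ^ (1 - 2 * (2 - s)) = ((q : ℂ) ^ s) ^ 2 / (q : ℂ) ^ 3 := by
    have : 1 - 2 * (2 - s) = 2 * s - 3 := by ring
    rw [this, Complex.cpow_sub _ _ hQ, h2s, Complex.cpow_ofNat]
  have e7 : (q : ℂ) ^ (1 - (2 - s)) = (q : ℂ) ^ s / (q : ℂ) := by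
    have : 1 - (2 - s) = s - 1 := by ring
    rw [this, Complex.cpow_sub _ _ hQ, Complex.cpow_one]
  have e8 : (q : ℂ) ^ (3 - 2 * (2 - s)) = ((q : ℂ) ^ s) ^ 2 / (q : ℂ) := by
    have : 3 - 2 * (2 - s) = 2 * s - 1 := by ring
    rw [this, Complex.cpow_sub _ _ hQ, h2s, Complex.cpow_one]
  have e9 : (q : ℂ) ^ (4 * s - 3) = ((q : ℂ) ^ s) ^ 4 / (q : ℂ) ^ 3 := by
    rw [Complex.cpow_sub _ _ hQ, Complex.cpow_ofNat, mul_comm (4 : ℂ) s, Complex.cpow_mul_ofNat]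
  have f0 : nut Ty.r q lam (false, false) s t = (2 * (Real.sqrt q : ℂ) * (q : ℂ) ^ (4 * s - 3))⁻¹ *
      (1 * kb q lam (2 - s) * ka q (-lam) (2 - s) * r1 q (ww s t) +
        -1 * kb q (-lam) (2 - s) * ka q lam (2 - s) * r0 q (ww s t)) := rfl
  rw [f0]
  unfold r1 r0 kb ka
  rw [e1, e2, e5, e6, e7, e8, e9, ← div_eq_mul_inv ((q : ℂ) ^ t), Complex.ofReal_neg]
  have f1 := nd_algr (q : ℂ) ((q : ℂ) ^ s) ((q : ℂ) ^ t) (lam : ℂ) (Real.sqrt q : ℂ)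
    (1 - (q : ℂ) ^ t / (q : ℂ) ^ s)⁻¹ hQ hX hr
  rw [f1, ← div_eq_mul_inv ((q : ℂ) ^ t)]

private theorem nd_eqi {q : ℕ} (hq : 101 ≤ q) (lam : ℝ) (s t : ℂ) :
    nut Ty.i q lam (false, false) s t =
    ((1 + (q : ℂ) ^ 2 / (q : ℂ) ^ t * ((q : ℂ) ^ s)⁻¹) *
        (1 + -(lam : ℂ) * q * ((q : ℂ) ^ s)⁻¹ + (q : ℂ) ^ 3 * ((q : ℂ) ^ s)⁻¹ ^ 2) *
        ((1 + -((q : ℂ) ^ t / q) * ((q : ℂ) ^ s)⁻¹) * (1 + (q : ℂ) ^ t * ((q : ℂ) ^ s)⁻¹) *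
          (1 - (q : ℂ) ^ t * ((q : ℂ) ^ s)⁻¹)⁻¹) +
      (1 + (q : ℂ) ^ 3 / (q : ℂ) ^ t * ((q : ℂ) ^ s)⁻¹) *
        (1 + -(lam : ℂ) * ((q : ℂ) ^ s)⁻¹ + (q : ℂ) * ((q : ℂ) ^ s)⁻¹ ^ 2) *
        (1 + (q : ℂ) ^ t * ((q : ℂ) ^ s)⁻¹)) / 2 := by
  have hQ : (q : ℂ) ≠ 0 := by
    exact_mod_cast (by omega : q ≠ 0)
  have hX : (q : ℂ) ^ s ≠ 0 := Complex.cpow_ne_zero_iff.mpr (Or.inl hQ)
  have hT : (q : ℂ) ^ t ≠ 0 := Complex.cpow_ne_zero_iff.mpr (Or.inl hQ)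
  have hr : (Real.sqrt q : ℂ) ≠ 0 := by
    intro h0
    have h1 := nd_sq (q := q)
    rw [h0] at h1
    exact hQ (by rw [← h1]; ring)
  have h2s : (q : ℂ) ^ (2 * s) = ((q : ℂ) ^ s) ^ 2 := by
    rw [two_mul, Complex.cpow_add _ _ hQ, sq]
  have e1 : (q : ℂ) ^ (ww s t - 3 / 2) = (q : ℂ) ^ t / ((q : ℂ) ^ s * q) := by
    have : ww s t - 3 / 2 = t - (s + 1) := by unfold ww; ring
    rw [this, Complex.cpow_sub _ _ hQ, Complex.cpow_add _ _ hQ, Complex.cpow_one]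
  have e2 : (q : ℂ) ^ (ww s t - 1 / 2) = (q : ℂ) ^ t / (q : ℂ) ^ s := by
    have : ww s t - 1 / 2 = t - s := by unfold ww; ring
    rw [this, Complex.cpow_sub _ _ hQ]
  have e3 : (q : ℂ) ^ (wp s t - 3 / 2) = (q : ℂ) ^ t * (q : ℂ) ^ s / (q : ℂ) ^ 3 := by
    have : wp s t - 3 / 2 = t + s - 3 := by unfold wp; ring
    rw [this, Complex.cpow_sub _ _ hQ, Complex.cpow_add _ _ hQ, Complex.cpow_ofNat]
  have e4 : (q : ℂ) ^ (wp s t - 1 / 2) = (q : ℂ) ^ t * (q : ℂ) ^ s / (q : ℂ) ^ 2 := by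
    have : wp s t - 1 / 2 = t + s - 2 := by unfold wp; ring
    rw [this, Complex.cpow_sub _ _ hQ, Complex.cpow_add _ _ hQ, Complex.cpow_ofNat]
  have e5 : (q : ℂ) ^ (-(2 - s)) = (q : ℂ) ^ s / (q : ℂ) ^ 2 := by
    have : -(2 - s) = s - 2 := by ring
    rw [this, Complex.cpow_sub _ _ hQ, Complex.cpow_ofNat]
  have e6 : (q : ℂ) ^ (1 - 2 * (2 - s)) = ((q : ℂ) ^ s) ^ 2 / (q : ℂ) ^ 3 := by
    have : 1 - 2 * (2 - s) = 2 * s - 3 := by ring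
    rw [this, Complex.cpow_sub _ _ hQ, h2s, Complex.cpow_ofNat]
  have e7 : (q : ℂ) ^ (1 - (2 - s)) = (q : ℂ) ^ s / (q : ℂ) := by
    have : 1 - (2 - s) = s - 1 := by ring
    rw [this, Complex.cpow_sub _ _ hQ, Complex.cpow_one]
  have e8 : (q : ℂ) ^ (3 - 2 * (2 - s)) = ((q : ℂ) ^ s) ^ 2 / (q : ℂ) := by
    have : 3 - 2 * (2 - s) = 2 * s - 1 := by ring
    rw [this, Complex.cpow_sub _ _ hQ, h2s, Complex.cpow_one]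
  have e9 : (q : ℂ) ^ (3 * s - 7 / 2) = ((q : ℂ) ^ s) ^ 3 / ((q : ℂ) ^ 3 * (Real.sqrt q : ℂ)) := by
    have h7 : (3 * s - 7 / 2 : ℂ) = s * 3 - (3 + 1 / 2) := by ring
    rw [h7, Complex.cpow_sub _ _ hQ, Complex.cpow_mul_ofNat, Complex.cpow_add _ _ hQ,
      Complex.cpow_ofNat, ← nd_sqrt]
  have f0 : nut Ty.i q lam (false, false) s t = (-2 * ((q : ℂ) ^ t * (q : ℂ) ^ (3 * s - 7 / 2)))⁻¹ *
      (r2 q (wp s t) * kb q (-lam) (2 - s) * 1 * r0 q (ww s t) +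
        -r1 q (wp s t) * 1 * ka q (-lam) (2 - s) * r2 q (ww s t)) := rfl
  rw [f0]
  unfold r1 r2 r0 kb ka
  rw [e1, e2, e3, e4, e5, e6, e7, e8, e9, ← div_eq_mul_inv ((q : ℂ) ^ t), Complex.ofReal_neg]
  have f1 := nd_algi (q : ℂ) ((q : ℂ) ^ s) ((q : ℂ) ^ t) (lam : ℂ) (Real.sqrt q : ℂ)
    (1 - (q : ℂ) ^ t / (q : ℂ) ^ s)⁻¹ hX hT hr nd_sq
  rw [f1, ← div_eq_mul_inv ((q : ℂ) ^ t)]

theorem nut_lim (τ : Ty) {q : ℕ} (hq : 101 ≤ q) (lam : ℝ) {t : ℂ} (ht : 0 < t.re) :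
    ∃ C : ℝ, 0 ≤ C ∧ ∀ s : ℂ, t.re + 3 < s.re →
      ‖nut τ q lam (false, false) s t - LamT τ q lam t‖ ≤ C * (101 : ℝ) ^ (-s.re) := by
  have h0 : Nr t (fun s => (1 + -((q : ℂ) ^ t / q) * ((q : ℂ) ^ s)⁻¹) *
      (1 + (q : ℂ) ^ t * ((q : ℂ) ^ s)⁻¹) * (1 - (q : ℂ) ^ t * ((q : ℂ) ^ s)⁻¹)⁻¹) :=
    nd_mul ht (nd_mul ht (nd_add ht hq (nd_one t) _) (nd_add ht hq (nd_one t) _)) (nd_inv ht hq)
  cases τ with
  | s =>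
    refine ⟨0, le_rfl, fun s _ => ?_⟩
    have e1 : nut Ty.s q lam (false, false) s t = Lam q lam t := by
      show nu q lam (false, false) s t = Lam q lam t
      exact if_pos rfl
    have e2 : LamT Ty.s q lam t = Lam q lam t := rfl
    rw [e1, e2, sub_self, norm_zero, zero_mul]
  | r =>
    obtain ⟨C, hC, h1⟩ := nd_mean
      (nd_mul ht (nd_mul ht (nd_add2 ht hq (nd_add ht hq (nd_one t) ((lam : ℂ) * q)) ((q : ℂ) ^ 3))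
        (nd_add2 ht hq (nd_add ht hq (nd_one t) (-(lam : ℂ))) (q : ℂ)))
        (nd_add ht hq (nd_one t) ((q : ℂ) ^ t / q)))
      (nd_mul ht (nd_mul ht (nd_add2 ht hq (nd_add ht hq (nd_one t) (-(lam : ℂ) * q)) ((q : ℂ) ^ 3))
        (nd_add2 ht hq (nd_add ht hq (nd_one t) (lam : ℂ)) (q : ℂ))) h0)
    refine ⟨C, hC, fun s hs => ?_⟩
    have e2 : LamT Ty.r q lam t = 1 := rfl
    rw [e2, nd_eqr hq lam s t]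
    exact h1 s hs
  | i =>
    obtain ⟨C, hC, h1⟩ := nd_mean
      (nd_mul ht (nd_mul ht (nd_add ht hq (nd_one t) ((q : ℂ) ^ 2 / (q : ℂ) ^ t))
        (nd_add2 ht hq (nd_add ht hq (nd_one t) (-(lam : ℂ) * q)) ((q : ℂ) ^ 3))) h0)
      (nd_mul ht (nd_mul ht (nd_add ht hq (nd_one t) ((q : ℂ) ^ 3 / (q : ℂ) ^ t))
        (nd_add2 ht hq (nd_add ht hq (nd_one t) (-(lam : ℂ))) (q : ℂ)))
        (nd_add ht hq (nd_one t) ((q : ℂ) ^ t)))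
    refine ⟨C, hC, fun s hs => ?_⟩
    have e2 : LamT Ty.i q lam t = 1 := rfl
    rw [e2, nd_eqi hq lam s t]
    exact h1 s hs

end Pool.Agent.MX
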