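import Pool.Agent.MX.A.NuB
import Pool.Agent.MX.A.NuC
import Pool.Agent.MX.A.NuD

/-!
# MX/A-GsLim: the combination of the normalised series tends to `∏ LamT * Ls^2` (MD/A-GsLim)
-/

namespace Pool.Agent.MX

open Pool.Agent.QD Pool.Agent.QD.SysD Pool.Agent.LD Pool.Agent.MD

/-- the combination of the series of the classes `cl e p k` -/
noncomputable def Gst (S : SysD) {κ : Type} [Fintype κ] [DecidableEq κ] (e p : κ → S.G)
    (q : κ → ℕ) (lam : κ → ℝ) (ty : κ → Ty) (s t : ℂ) : ℂ :=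
  ∑ k : κ → LC, (∏ i, nut (ty i) (q i) (lam i) (k i) s t) * Gqc S (cl e p k) s t

variable {S : SysD} {H : Subgroup S.G} {Kn : Set S.G} {M0 : S.G → ℂ → ℂ} {κ : Type} [Fintype κ]
  [DecidableEq κ] {e p : κ → S.G} {q : κ → ℕ} {lam : κ → ℝ} {ty : κ → Ty}

private theorem gl_pow {x : ℝ} (hx : 0 ≤ x) : (101 : ℝ) ^ (-x) ≤ 1 :=
  Real.rpow_le_one_of_one_le_of_nonpos (by norm_num) (by linarith)

private theorem prod_lim (hq : ∀ i, 101 ≤ q i) {t : ℂ} (ht : 0 < t.re) (u : Finset κ) :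
    ∃ C : ℝ, 0 ≤ C ∧ ∀ s : ℂ, t.re + 3 < s.re →
      ‖∏ i ∈ u, nut (ty i) (q i) (lam i) (false, false) s t -
        ∏ i ∈ u, LamT (ty i) (q i) (lam i) t‖ ≤ C * (101 : ℝ) ^ (-s.re) := by
  induction u using Finset.induction_on with
  | empty =>
    refine ⟨0, le_rfl, fun s _ => ?_⟩
    rw [Finset.prod_empty, Finset.prod_empty, sub_self, norm_zero, zero_mul]
  | insert i u hi ih =>
    obtain ⟨C1, hC1, h1⟩ := ih
    obtain ⟨C2, hC2, h2⟩ := nut_lim (ty i) (hq i) (lam i) ht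
    refine ⟨C2 * (‖∏ i ∈ u, LamT (ty i) (q i) (lam i) t‖ + C1) +
      ‖LamT (ty i) (q i) (lam i) t‖ * C1, by positivity, fun s hs => ?_⟩
    rw [Finset.prod_insert hi, Finset.prod_insert hi]
    have g1 := h1 s hs
    have g2 := h2 s hs
    generalize nut (ty i) (q i) (lam i) (false, false) s t = x at g2 ⊢
    generalize LamT (ty i) (q i) (lam i) t = x' at g2 ⊢
    generalize (∏ i ∈ u, nut (ty i) (q i) (lam i) (false, false) s t) = y at g1 ⊢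
    generalize (∏ i ∈ u, LamT (ty i) (q i) (lam i) t) = y' at g1 ⊢
    have hE : (101 : ℝ) ^ (-s.re) ≤ 1 := gl_pow (by linarith)
    have hE0 : 0 ≤ (101 : ℝ) ^ (-s.re) := by positivity
    have hy : ‖y‖ ≤ ‖y'‖ + C1 := by
      have h3 : y = y' + (y - y') := by ring
      calc ‖y‖ = ‖y' + (y - y')‖ := by rw [← h3]
        _ ≤ ‖y'‖ + ‖y - y'‖ := norm_add_le _ _
        _ ≤ ‖y'‖ + C1 := by
            have : C1 * (101 : ℝ) ^ (-s.re) ≤ C1 * 1 := mul_le_mul_of_nonneg_left hE hC1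
            linarith
    have h4 : x * y - x' * y' = (x - x') * y + x' * (y - y') := by ring
    rw [h4]
    refine (norm_add_le _ _).trans ?_
    rw [norm_mul, norm_mul]
    have h5 : ‖x - x'‖ * ‖y‖ ≤ (C2 * (101 : ℝ) ^ (-s.re)) * (‖y'‖ + C1) :=
      mul_le_mul g2 hy (norm_nonneg _) (by positivity)
    have h6 : ‖x'‖ * ‖y - y'‖ ≤ ‖x'‖ * (C1 * (101 : ℝ) ^ (-s.re)) :=
      mul_le_mul_of_nonneg_left g1 (norm_nonneg _)
    calc ‖x - x'‖ * ‖y‖ + ‖x'‖ * ‖y - y'‖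
        ≤ (C2 * (101 : ℝ) ^ (-s.re)) * (‖y'‖ + C1) + ‖x'‖ * (C1 * (101 : ℝ) ^ (-s.re)) :=
          add_le_add h5 h6
      _ = _ := by ring

private theorem term_zero (hS : IsSys0 S) (hq : ∀ i, 101 ≤ q i) : ∃ A2 : ℝ, 6 ≤ A2 ∧
    ∀ t : ℂ, A2 < t.re → ∃ C : ℝ, 0 ≤ C ∧ ∀ s : ℂ, t.re + A2 < s.re →
      ‖(∏ i, nut (ty i) (q i) (lam i) (false, false) s t) *
          Gqc S (cl e p fun _ => (false, false)) s t -
        (∏ i, LamT (ty i) (q i) (lam i) t) * S.Ls t ^ 2‖ ≤ C * (101 : ℝ) ^ (-s.re) := by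
  obtain ⟨A2, hA2, h⟩ := Gq_lim hS
  refine ⟨A2, hA2, fun t ht => ?_⟩
  obtain ⟨C, hC, hb⟩ := h t ht
  obtain ⟨C1, hC1, hb1⟩ := prod_lim (ty := ty) (lam := lam) hq (t := t) (by linarith) Finset.univ
  refine ⟨C1 * (‖S.Ls t ^ 2‖ + C) + ‖∏ i, LamT (ty i) (q i) (lam i) t‖ * C, by positivity,
    fun s hs => ?_⟩
  have g1 := hb1 s (by linarith)
  have g2 := hb s hs
  rw [cl_zero, Gqc_one]
  generalize (∏ i, nut (ty i) (q i) (lam i) (false, false) s t) = y at g1 ⊢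
  generalize (∏ i, LamT (ty i) (q i) (lam i) t) = y' at g1 ⊢
  generalize Gq S s t = x at g2 ⊢
  generalize S.Ls t ^ 2 = x' at g2 ⊢
  have hE : (101 : ℝ) ^ (-s.re) ≤ 1 := gl_pow (by linarith)
  have hE0 : 0 ≤ (101 : ℝ) ^ (-s.re) := by positivity
  have hx : ‖x‖ ≤ ‖x'‖ + C := by
    have h3 : x = x' + (x - x') := by ring
    calc ‖x‖ = ‖x' + (x - x')‖ := by rw [← h3]
      _ ≤ ‖x'‖ + ‖x - x'‖ := norm_add_le _ _
      _ ≤ ‖x'‖ + C := by
          have : C * (101 : ℝ) ^ (-s.re) ≤ C * 1 := mul_le_mul_of_nonneg_left hE hC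
          linarith
  have h4 : y * x - y' * x' = (y - y') * x + y' * (x - x') := by ring
  rw [h4]
  refine (norm_add_le _ _).trans ?_
  rw [norm_mul, norm_mul]
  have h5 : ‖y - y'‖ * ‖x‖ ≤ (C1 * (101 : ℝ) ^ (-s.re)) * (‖x'‖ + C) :=
    mul_le_mul g1 hx (norm_nonneg _) (by positivity)
  have h6 : ‖y'‖ * ‖x - x'‖ ≤ ‖y'‖ * (C * (101 : ℝ) ^ (-s.re)) :=
    mul_le_mul_of_nonneg_left g2 (norm_nonneg _)
  calc ‖y - y'‖ * ‖x‖ + ‖y'‖ * ‖x - x'‖
      ≤ (C1 * (101 : ℝ) ^ (-s.re)) * (‖x'‖ + C) + ‖y'‖ * (C * (101 : ℝ) ^ (-s.re)) :=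
        add_le_add h5 h6
    _ = _ := by ring

private theorem term_pos (hL : IsLocT S H Kn M0 e p q lam ty)
    {A2 : ℝ} (hA2 : 6 ≤ A2) (hG : ∀ (c : S.G) (Q : ℕ), 1 ≤ Q →
    (∀ b : S.J, S.R b c → Q ≤ S.nJ b) → ∀ t : ℂ, A2 < t.re →
    ∃ C : ℝ, 0 ≤ C ∧ ∀ s : ℂ, t.re + A2 < s.re → ‖Gqc S c s t‖ ≤ C * (Q : ℝ) ^ (-s.re))
    {k : κ → LC} (hk : k ≠ fun _ => (false, false)) {t : ℂ} (ht : A2 < t.re) :
    ∃ C : ℝ, 0 ≤ C ∧ ∀ s : ℂ, t.re + A2 < s.re →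
      ‖(∏ i, nut (ty i) (q i) (lam i) (k i) s t) * Gqc S (cl e p k) s t‖ ≤
        C * (101 : ℝ) ^ (-s.re) := by
  have hq0 : ∀ i, 1 ≤ q i := fun i => by have := hL.hq i; omega
  have hprod : 1 ≤ ∏ i, q i := Nat.one_le_iff_ne_zero.2
    (Finset.prod_ne_zero_iff.2 fun i _ => by have := hq0 i; omega)
  obtain ⟨C1, hC1, h1⟩ := hG (cl e p k) (101 * ∏ i, q i) (by omega) (hL.sep k hk) t ht
  choose C2 hC2 h2 using fun i => nut_bd (ty i) (hL.hq i) (lam i) (k i) (t := t) (by linarith)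
  refine ⟨(∏ i, C2 i) * C1, mul_nonneg (Finset.prod_nonneg fun i _ => hC2 i) hC1,
    fun s hs => ?_⟩
  have hP : (0 : ℝ) < ∏ i, (q i : ℝ) := Finset.prod_pos fun i _ => by
    have := hq0 i
    exact_mod_cast this
  have e1 : ‖∏ i, nut (ty i) (q i) (lam i) (k i) s t‖ ≤ (∏ i, C2 i) * (∏ i, (q i : ℝ)) ^ s.re := by
    rw [norm_prod]
    calc ∏ i, ‖nut (ty i) (q i) (lam i) (k i) s t‖ ≤ ∏ i, (C2 i * (q i : ℝ) ^ s.re) :=
          Finset.prod_le_prod (fun i _ => norm_nonneg _) fun i _ => h2 i s (by linarith)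
      _ = (∏ i, C2 i) * (∏ i, (q i : ℝ)) ^ s.re := by
          rw [Finset.prod_mul_distrib, Real.finset_prod_rpow _ _ fun i _ => by positivity]
  have e2 := h1 s hs
  have e3 : (((101 * ∏ i, q i : ℕ) : ℝ)) ^ (-s.re) =
      (101 : ℝ) ^ (-s.re) * ((∏ i, (q i : ℝ)) ^ s.re)⁻¹ := by
    push_cast
    rw [Real.mul_rpow (by norm_num) hP.le, Real.rpow_neg hP.le]
  rw [e3] at e2
  have hPs : 0 < (∏ i, (q i : ℝ)) ^ s.re := Real.rpow_pos_of_pos hP _
  rw [norm_mul]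
  calc ‖∏ i, nut (ty i) (q i) (lam i) (k i) s t‖ * ‖Gqc S (cl e p k) s t‖
      ≤ ((∏ i, C2 i) * (∏ i, (q i : ℝ)) ^ s.re) *
        (C1 * ((101 : ℝ) ^ (-s.re) * ((∏ i, (q i : ℝ)) ^ s.re)⁻¹)) :=
        mul_le_mul e1 e2 (norm_nonneg _)
          (mul_nonneg (Finset.prod_nonneg fun i _ => hC2 i) hPs.le)
    _ = (∏ i, C2 i) * C1 * (101 : ℝ) ^ (-s.re) := by
        field_simp

theorem Gst_lim (hS : IsSys0 S) (hL : IsLocT S H Kn M0 e p q lam ty) : ∃ A2 : ℝ, 6 ≤ A2 ∧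
    ∀ t : ℂ, A2 < t.re →
      DifferentiableOn ℂ (fun s => Gst S e p q lam ty s t) {s : ℂ | t.re + A2 < s.re} ∧
      ∃ C : ℝ, 0 ≤ C ∧ ∀ s : ℂ, t.re + A2 < s.re →
        ‖Gst S e p q lam ty s t - (∏ i, LamT (ty i) (q i) (lam i) t) * S.Ls t ^ 2‖ ≤
          C * (101 : ℝ) ^ (-s.re) := by
  classical
  obtain ⟨Aa, hAa, ha⟩ := Gqc_diff hS
  obtain ⟨Ab, hAb, hb⟩ := Gqc_bd hS
  obtain ⟨Ac, hAc, hc⟩ := term_zero (e := e) (p := p) (q := q) (lam := lam) (ty := ty) hS hL.hq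
  refine ⟨max Aa (max Ab Ac), hAa.trans (le_max_left _ _), fun t ht => ?_⟩
  have hla : Aa ≤ max Aa (max Ab Ac) := le_max_left _ _
  have hlb : Ab ≤ max Aa (max Ab Ac) := (le_max_left _ _).trans (le_max_right _ _)
  have hlc : Ac ≤ max Aa (max Ab Ac) := (le_max_right _ _).trans (le_max_right _ _)
  constructor
  · unfold Gst
    refine DifferentiableOn.fun_sum fun k _ => DifferentiableOn.mul ?_ ?_
    · refine DifferentiableOn.fun_finsetProd fun i _ => ?_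
      refine (nut_diff (ty i) (hL.hq i) (lam i) (k i) (t := t) (by linarith)).mono fun s hs => ?_
      have hs' : t.re + max Aa (max Ab Ac) < s.re := hs
      show t.re + 3 < s.re
      linarith
    · refine (ha (cl e p k) t (by linarith)).mono fun s hs => ?_
      have hs' : t.re + max Aa (max Ab Ac) < s.re := hs
      show t.re + Aa < s.re
      linarith
  · obtain ⟨C0, hC0, h0⟩ := hc t (by linarith)
    have hterm : ∀ k : κ → LC, ∃ C : ℝ, 0 ≤ C ∧ ∀ s : ℂ, t.re + max Aa (max Ab Ac) < s.re →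
        ‖(∏ i, nut (ty i) (q i) (lam i) (k i) s t) * Gqc S (cl e p k) s t -
          (if k = (fun _ => (false, false)) then
            (∏ i, LamT (ty i) (q i) (lam i) t) * S.Ls t ^ 2 else 0)‖ ≤ C * (101 : ℝ) ^ (-s.re) := by
      intro k
      by_cases hk : k = fun _ => (false, false)
      · refine ⟨C0, hC0, fun s hs => ?_⟩
        rw [if_pos hk, hk]
        exact h0 s (by linarith)
      · obtain ⟨C1, hC1, h1⟩ := term_pos hL hAb hb hk (t := t) (by linarith)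
        refine ⟨C1, hC1, fun s hs => ?_⟩
        rw [if_neg hk, sub_zero]
        exact h1 s (by linarith)
    choose C hC hCb using hterm
    refine ⟨∑ k, C k, Finset.sum_nonneg fun k _ => hC k, fun s hs => ?_⟩
    have e1 : Gst S e p q lam ty s t - (∏ i, LamT (ty i) (q i) (lam i) t) * S.Ls t ^ 2 =
        ∑ k : κ → LC, ((∏ i, nut (ty i) (q i) (lam i) (k i) s t) * Gqc S (cl e p k) s t -
          (if k = (fun _ => (false, false)) then
            (∏ i, LamT (ty i) (q i) (lam i) t) * S.Ls t ^ 2 else 0)) := by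
      rw [Finset.sum_sub_distrib, Finset.sum_ite_eq' Finset.univ (fun _ => (false, false)),
        if_pos (Finset.mem_univ _)]
      rfl
    rw [e1, Finset.sum_mul]
    exact (norm_sum_le _ _).trans (Finset.sum_le_sum fun k _ => hCb k s hs)

end Pool.Agent.MX
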