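import Pool.Agent.MX.A.Kf1

/-!
# MX/A-Kf2: agreement of the two expressions of the invariant combination, its continuation (MD/A-Kf2)
-/

namespace Pool.Agent.MX

open Pool.Agent.QD Pool.Agent.QD.SysD Pool.Agent.LD Pool.Agent.MD

variable {S : SysD} {H : Subgroup S.G} {Kn : Set S.G} {M0 : S.G → ℂ → ℂ} {κ : Type} [Fintype κ]
  [DecidableEq κ] {e p : κ → S.G} {q : κ → ℕ} {lam : κ → ℝ} {ty : κ → Ty} {R : ℝ} {Y : S.G → ℂ → ℂ → ℂ}

theorem K_agree (hL : IsLocT S H Kn M0 e p q lam ty) (hY : IsY S Kn R Y) (hB : Beta S R) {g : S.G}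
    (hg : g ∈ H) (s t : ℂ) (hs : R < s.re) (ht : R < t.re) (hw : (ww s t).re < 0) :
    K1t S Y e p q ty g s t = K2t S Kn Y e p q ty g s t := by
  classical
  have hw0 : ww s t ≠ 0 := by
    intro h
    rw [h, Complex.zero_re] at hw
    exact lt_irrefl _ hw
  have hw2 : (ww s t) ^ 2 ≠ 0 := pow_ne_zero 2 hw0
  obtain ⟨P, hP⟩ : ∃ P : (κ → Bool) → ℂ, P = fun f => ∏ i, cx (ty i) (q i) (f i) (ww s t) := ⟨_, rfl⟩
  obtain ⟨Cf, hCf⟩ : ∃ Cf : S.G → ℂ, Cf = fun c => ∑ f : κ → Bool, P f *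
      S.M (g * (cl e p fun i => pr (ty i) (f i)) * c) (ww s t) := ⟨_, rfl⟩
  have hzero : ∀ c, c ∉ Kn → Cf c = 0 := by
    intro c hc
    obtain ⟨h, hh, k, rfl⟩ := hL.dec c
    rw [hL.Kn_iff h hh k] at hc
    push Not at hc
    obtain ⟨i0, hi0⟩ := hc
    have h1 := coefT hL hg hh k hw (fun i => cx (ty i) (q i) true (ww s t))
      (fun i => cx (ty i) (q i) false (ww s t))
    have h0 : ∀ f : κ → Bool, (∏ i, if f i then cx (ty i) (q i) true (ww s t) else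
        cx (ty i) (q i) false (ww s t)) = ∏ i, cx (ty i) (q i) (f i) (ww s t) := by
      intro f
      refine Finset.prod_congr rfl fun i _ => ?_
      cases f i <;> simp
    simp only [h0] at h1
    have h2 : Cf (h * cl e p k) = ∑ f : κ → Bool, (∏ i, cx (ty i) (q i) (f i) (ww s t)) *
          S.M (g * (cl e p fun i => pr (ty i) (f i)) * (h * cl e p k)) (ww s t) := by
      rw [hCf, hP]
    rw [h2, h1]
    refine mul_eq_zero_of_right _ (Finset.prod_eq_zero (Finset.mem_univ i0) ?_)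
    exact cx_zero (ty i0) (q i0) (k i0) hi0 (ww s t)
  have h3 : ∀ c : S.G, (if c ∈ Kn then Cf c * Y c t s else 0) = Cf c * YR S c t s := by
    intro c
    by_cases hc : c ∈ Kn
    · rw [if_pos hc, hY.eq c hc t s ht hs]
    · rw [if_neg hc, hzero c hc, zero_mul]
  have h4 : K2t S Kn Y e p q ty g s t = (ww s t - 1) ^ 2 * ((ww s t) ^ 2)⁻¹ * ((S.cU : ℂ) ^ 2)⁻¹ *
      ∑ c : S.G, Cf c * YR S c t s := by
    rw [← Finset.sum_congr rfl fun c _ => h3 c, hCf, hP]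
    rfl
  have h5 : K1t S Y e p q ty g s t = ∑ f : κ → Bool, P f *
      YR S (g * cl e p fun i => pr (ty i) (f i)) s t := by
    rw [hP]
    unfold K1t
    refine Finset.sum_congr rfl fun f _ => ?_
    rw [hY.eq _ (kn_pr hL hg f) s t hs ht]
  have h7 : (ww s t) ^ 2 * K1t S Y e p q ty g s t = (ww s t - 1) ^ 2 * ((S.cU : ℂ) ^ 2)⁻¹ *
      ∑ c : S.G, Cf c * YR S c t s := by
    calc (ww s t) ^ 2 * K1t S Y e p q ty g s t
        = ∑ f : κ → Bool, P f *
          ((ww s t) ^ 2 * YR S (g * cl e p fun i => pr (ty i) (f i)) s t) := by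
          rw [h5, Finset.mul_sum]
          refine Finset.sum_congr rfl fun f _ => ?_
          ring
      _ = ∑ f : κ → Bool, ∑ c : S.G, (ww s t - 1) ^ 2 * ((S.cU : ℂ) ^ 2)⁻¹ *
          (P f * S.M (g * (cl e p fun i => pr (ty i) (f i)) * c) (ww s t) * YR S c t s) := by
          refine Finset.sum_congr rfl fun f _ => ?_
          rw [hB _ s t hs ht hw, Finset.mul_sum, Finset.mul_sum]
          refine Finset.sum_congr rfl fun c _ => ?_
          ring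
      _ = ∑ c : S.G, (ww s t - 1) ^ 2 * ((S.cU : ℂ) ^ 2)⁻¹ * (Cf c * YR S c t s) := by
          rw [Finset.sum_comm]
          refine Finset.sum_congr rfl fun c _ => ?_
          rw [← Finset.mul_sum, ← Finset.sum_mul, hCf]
      _ = _ := by rw [Finset.mul_sum]
  have h6 : (ww s t) ^ 2 * K1t S Y e p q ty g s t = (ww s t) ^ 2 * K2t S Kn Y e p q ty g s t := by
    rw [h7, h4]
    calc (ww s t - 1) ^ 2 * ((S.cU : ℂ) ^ 2)⁻¹ * ∑ c : S.G, Cf c * YR S c t s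
        = ((ww s t) ^ 2 * ((ww s t) ^ 2)⁻¹) * ((ww s t - 1) ^ 2 * ((S.cU : ℂ) ^ 2)⁻¹ *
          ∑ c : S.G, Cf c * YR S c t s) := by rw [mul_inv_cancel₀ hw2, one_mul]
      _ = _ := by ring
  exact mul_left_cancel₀ hw2 h6

theorem exists_E (hS : IsSys0 S) (hL : IsLocT S H Kn M0 e p q lam ty) (hR : 1 ≤ R)
    (hY : IsY S Kn R Y) (hB : Beta S R) {g : S.G} (hg : g ∈ H) (a b x0 X1 : ℝ) :
    ∃ E : ℂ → ℂ → ℂ,
      Hol2 {x | a < x.1.re ∧ x.1.re < b ∧ x0 < x.2.re ∧ x.2.re < X1} E ∧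
      (∃ A C : ℝ, 0 ≤ A ∧ 0 ≤ C ∧ ∀ s t : ℂ, a < s.re → s.re < b → x0 < t.re → t.re < X1 →
        ‖E s t‖ ≤ C * (1 + |s.im| + |t.im|) ^ A) ∧
      ∀ s t : ℂ, a < s.re → s.re < b → R < t.re → t.re < X1 → x0 < t.re →
        E s t = K1t S Y e p q ty g s t :=
  Pool.Agent.LD.hart hR (K1t_hol hL hY hg) (fun a b c d hc => K1t_bd hL hY hg a b c d hc)
    (K2t_hol hS hL hY g) (fun a b c d ha hd => K2t_bd hS hL hY g a b c d ha hd)
    (fun s t hs ht hw => K_agree hL hY hB hg s t hs ht hw) a b x0 X1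

end Pool.Agent.MX
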