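import Pool.Agent.MX.A.Cls

/-!
# MX/A-NuA: the local factors, algebra
-/

namespace Pool.Agent.MX

open Pool.Agent.QD Pool.Agent.QD.SysD Pool.Agent.LD Pool.Agent.MD

theorem ndt_ne (τ : Ty) {q : ℕ} (hq : 101 ≤ q) {s t : ℂ} (hs : 3 ≤ s.re) : ndt τ q s t ≠ 0 := by
  have hq0 : (q : ℂ) ≠ 0 := by
    have : q ≠ 0 := by omega
    exact_mod_cast this
  have hp : ∀ z : ℂ, (q : ℂ) ^ z ≠ 0 := fun z => Complex.cpow_ne_zero_iff.mpr (Or.inl hq0)
  have hsq : (Real.sqrt q : ℂ) ≠ 0 := by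
    have : (0 : ℝ) < q := by
      have : 0 < q := by omega
      exact_mod_cast this
    exact_mod_cast (Real.sqrt_pos.2 this).ne'
  cases τ
  · refine mul_ne_zero ?_ (hp t)
    intro h0
    have h1 := nd_norm hq hs
    rw [h0, norm_zero] at h1
    linarith
  · exact mul_ne_zero (mul_ne_zero two_ne_zero hsq) (hp _)
  · exact mul_ne_zero (by norm_num) (mul_ne_zero (hp _) (hp _))

theorem nut_mul (τ : Ty) {q : ℕ} (hq : 101 ≤ q) (lam : ℝ) (k : LC) {s t : ℂ} (hs : 3 ≤ s.re) :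
    tht τ q lam true s t * mloc q (xr (pr τ true) k) (ww s t) +
      tht τ q lam false s t * mloc q (xr (pr τ false) k) (ww s t) =
    ndt τ q s t * nut τ q lam k s t := by
  cases τ
  · have h := nu_mul hq lam k (s := s) (t := t) hs
    unfold ndt nut tht cx gn gd pr
    simpa using h
  · unfold nut
    rw [← mul_assoc, mul_inv_cancel₀ (ndt_ne Ty.r hq hs), one_mul]
  · unfold nut
    rw [← mul_assoc, mul_inv_cancel₀ (ndt_ne Ty.i hq hs), one_mul]

end Pool.Agent.MX
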