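import Pool.Agent.MX.A.NuA

/-!
# MX/A-NuB: the local factors are holomorphic in `s`
-/

namespace Pool.Agent.MX

open Pool.Agent.QD Pool.Agent.QD.SysD Pool.Agent.LD Pool.Agent.MD

private theorem nub_cpow {q : ℕ} (hq : 101 ≤ q) {f : ℂ → ℂ} {z : ℂ} (hf : DifferentiableAt ℂ f z) :
    DifferentiableAt ℂ (fun z => (q : ℂ) ^ (f z)) z := by
  have hq0 : (q : ℂ) ≠ 0 := by
    have : q ≠ 0 := by omega
    exact_mod_cast this
  exact hf.const_cpow (Or.inl hq0)

private theorem nub_norm {q : ℕ} (hq : 101 ≤ q) (z : ℂ) : ‖(q : ℂ) ^ z‖ = (q : ℝ) ^ z.re :=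
  Complex.norm_natCast_cpow_of_pos (by omega) z

private theorem nub_ne {q : ℕ} (hq : 101 ≤ q) {w : ℂ} (hw : w.re < 0) :
    1 - (q : ℂ) ^ (w - 1 / 2) ≠ 0 := by
  have hqr : (101 : ℝ) ≤ q := by exact_mod_cast hq
  have h1 : ‖(q : ℂ) ^ (w - 1 / 2)‖ < 1 := by
    rw [nub_norm hq]
    refine Real.rpow_lt_one_of_one_lt_of_neg (by linarith) ?_
    rw [Complex.sub_re]
    norm_num
    linarith
  intro h0
  have h2 : (q : ℂ) ^ (w - 1 / 2) = 1 := (sub_eq_zero.1 h0).symm
  rw [h2, norm_one] at h1
  exact lt_irrefl _ h1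

private theorem nub_mdiff {q : ℕ} (hq : 101 ≤ q) (k : LC) {w : ℂ} (hw : w.re < 0) :
    DifferentiableAt ℂ (mloc q k) w := by
  have h1 : DifferentiableAt ℂ (fun w : ℂ => (q : ℂ) ^ (w - 3 / 2)) w :=
    nub_cpow hq (f := fun w : ℂ => w - 3 / 2) (by fun_prop)
  have h2 : DifferentiableAt ℂ (fun w : ℂ => (q : ℂ) ^ (w - 1 / 2)) w :=
    nub_cpow hq (f := fun w : ℂ => w - 1 / 2) (by fun_prop)
  have e : mloc q k = fun w => if k.2 then r2 q w else if k.1 then r1 q w else r0 q w := rfl
  rw [e]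
  by_cases hk2 : k.2 = true
  · simp only [hk2, if_true]
    unfold r2
    exact (differentiableAt_const _).add h2
  · by_cases hk1 : k.1 = true
    · simp only [hk2, hk1, if_true, if_false, Bool.false_eq_true]
      unfold r1
      exact ((differentiableAt_const _).add h1).const_mul _
    · simp only [hk2, hk1, if_false, Bool.false_eq_true]
      unfold r0
      exact ((((((differentiableAt_const _).sub h1).const_mul _).mul
        ((differentiableAt_const _).add h2)).mul
        (((differentiableAt_const _).sub h2).inv (nub_ne hq hw)))).neg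

private theorem nub_ww {s t : ℂ} (h : t.re + 3 < s.re) : (ww s t).re < 0 := by
  unfold ww
  rw [Complex.add_re, Complex.sub_re]
  norm_num
  linarith

private theorem nub_ka {q : ℕ} (hq : 101 ≤ q) (lam : ℝ) (s : ℂ) :
    DifferentiableAt ℂ (fun s => ka q lam (2 - s)) s := by
  unfold ka
  exact ((differentiableAt_const _).add ((nub_cpow hq (f := fun s : ℂ => 1 - (2 - s))
    (by fun_prop)).const_mul _)).add (nub_cpow hq (f := fun s : ℂ => 3 - 2 * (2 - s))
    (by fun_prop))

private theorem nub_kb {q : ℕ} (hq : 101 ≤ q) (lam : ℝ) (s : ℂ) :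
    DifferentiableAt ℂ (fun s => kb q lam (2 - s)) s := by
  unfold kb
  exact (((differentiableAt_const _).add ((nub_cpow hq (f := fun s : ℂ => -(2 - s))
    (by fun_prop)).const_mul _)).add (nub_cpow hq (f := fun s : ℂ => 1 - 2 * (2 - s))
    (by fun_prop))).const_mul _

private theorem nub_gd {q : ℕ} (hq : 101 ≤ q) (lam : ℝ) (k : LC) (s : ℂ) :
    DifferentiableAt ℂ (fun s => gd q lam k (2 - s)) s := by
  unfold gd
  by_cases hk2 : k.2 = true
  · simp only [hk2, if_true]
    exact differentiableAt_const _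
  · by_cases hk1 : k.1 = true
    · simp only [hk2, hk1, if_true, if_false, Bool.false_eq_true]
      exact nub_ka hq lam s
    · simp only [hk2, hk1, if_false, Bool.false_eq_true]
      exact nub_ka hq (-lam) s

private theorem nub_gn {q : ℕ} (hq : 101 ≤ q) (lam : ℝ) (k : LC) (s : ℂ) :
    DifferentiableAt ℂ (fun s => gn q lam k (2 - s)) s := by
  unfold gn
  by_cases hk2 : k.2 = true
  · simp only [hk2, if_true]
    exact differentiableAt_const _
  · by_cases hk1 : k.1 = true
    · simp only [hk2, hk1, if_true, if_false, Bool.false_eq_true]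
      exact nub_kb hq lam s
    · simp only [hk2, hk1, if_false, Bool.false_eq_true]
      exact nub_kb hq (-lam) s

private theorem nub_r1 {q : ℕ} (hq : 101 ≤ q) (s t : ℂ) :
    DifferentiableAt ℂ (fun s => r1 q (wp s t)) s := by
  unfold r1
  exact ((differentiableAt_const _).add (nub_cpow hq (f := fun s : ℂ => wp s t - 3 / 2) (by
    unfold wp
    fun_prop))).const_mul _

private theorem nub_r2 {q : ℕ} (hq : 101 ≤ q) (s t : ℂ) :
    DifferentiableAt ℂ (fun s => r2 q (wp s t)) s := by
  unfold r2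
  exact (differentiableAt_const _).add (nub_cpow hq (f := fun s : ℂ => wp s t - 1 / 2) (by
    unfold wp
    fun_prop))

private theorem nub_cx (τ : Ty) {q : ℕ} (hq : 101 ≤ q) (f : Bool) (s t : ℂ) :
    DifferentiableAt ℂ (fun s => cx τ q f (wp s t)) s := by
  cases τ
  · cases f
    · exact (nub_r1 hq s t).neg
    · exact nub_r2 hq s t
  · exact differentiableAt_const _
  · cases f
    · exact (nub_r1 hq s t).neg
    · exact nub_r2 hq s t

private theorem nub_tht (τ : Ty) {q : ℕ} (hq : 101 ≤ q) (lam : ℝ) (f : Bool) (s t : ℂ) :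
    DifferentiableAt ℂ (fun s => tht τ q lam f s t) s :=
  ((nub_cx τ hq f s t).mul (nub_gn hq lam (pr τ f) s)).mul (nub_gd hq lam (pr τ (!f)) s)

private theorem nub_ndt (τ : Ty) {q : ℕ} (hq : 101 ≤ q) (s t : ℂ) :
    DifferentiableAt ℂ (fun s => ndt τ q s t) s := by
  cases τ
  · have dnd : DifferentiableAt ℂ (fun s => nd q s) s := by
      unfold nd
      exact ((differentiableAt_const _).sub (nub_cpow hq (f := fun s : ℂ => 2 * (s - 2))
        (by fun_prop))).const_mul _
    exact dnd.mul_const _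
  · exact (nub_cpow hq (f := fun s : ℂ => 4 * s - 3) (by fun_prop)).const_mul _
  · exact ((nub_cpow hq (f := fun s : ℂ => 3 * s - 7 / 2) (by fun_prop)).const_mul _).const_mul _

private theorem nub_mw {q : ℕ} (hq : 101 ≤ q) (k : LC) {s t : ℂ} (h : t.re + 3 < s.re) :
    DifferentiableAt ℂ (fun s => mloc q k (ww s t)) s := by
  have dw : DifferentiableAt ℂ (fun s => ww s t) s := by
    unfold ww
    fun_prop
  exact DifferentiableAt.comp s (g := mloc q k) (f := fun s => ww s t)
    (nub_mdiff hq k (nub_ww h)) dw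

private theorem nub_ri (τ : Ty) {q : ℕ} (hq : 101 ≤ q) (lam : ℝ) (k : LC) {t : ℂ} (ht : 0 < t.re) :
    DifferentiableOn ℂ (fun s => (ndt τ q s t)⁻¹ *
      (tht τ q lam true s t * mloc q (xr (pr τ true) k) (ww s t) +
      tht τ q lam false s t * mloc q (xr (pr τ false) k) (ww s t)))
      {s : ℂ | t.re + 3 < s.re} := by
  intro s hs
  have hs' : t.re + 3 < s.re := hs
  refine DifferentiableAt.differentiableWithinAt ?_
  exact ((nub_ndt τ hq s t).inv (ndt_ne τ hq (by linarith))).mul
    (((nub_tht τ hq lam true s t).mul (nub_mw hq _ hs')).add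
      ((nub_tht τ hq lam false s t).mul (nub_mw hq _ hs')))

theorem nut_diff (τ : Ty) {q : ℕ} (hq : 101 ≤ q) (lam : ℝ) (k : LC) {t : ℂ} (ht : 0 < t.re) :
    DifferentiableOn ℂ (fun s => nut τ q lam k s t) {s : ℂ | t.re + 3 < s.re} := by
  cases τ
  · exact nu_diff hq lam k ht
  · exact nub_ri Ty.r hq lam k ht
  · exact nub_ri Ty.i hq lam k ht

end Pool.Agent.MX
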