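import Pool.Agent.MX.A.Sid
import Pool.Agent.MX.A.GsLim

/-!
# MX/A-RN: the combination `Gst`, times a polynomial, continues in `t` on the line
-/

namespace Pool.Agent.MX

open Pool.Agent.QD Pool.Agent.QD.SysD Pool.Agent.LD Pool.Agent.MD

variable {S : SysD} {H : Subgroup S.G} {Kn : Set S.G} {M0 : S.G → ℂ → ℂ} {κ : Type} [Fintype κ]
  [DecidableEq κ] {e p : κ → S.G} {q : κ → ℕ} {lam : κ → ℝ} {ty : κ → Ty} {R : ℝ} {Y : S.G → ℂ → ℂ → ℂ}

private theorem ww_swap (s t : ℂ) : ww t s - 1 = -ww s t := by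
  unfold ww
  ring

private theorem norm_le_sub_one {w : ℂ} (hw : w.re < 0) : ‖w‖ ≤ ‖w - 1‖ := by
  have h1 : ‖w‖ ^ 2 ≤ ‖w - 1‖ ^ 2 := by
    rw [Complex.sq_norm, Complex.sq_norm, Complex.normSq_apply, Complex.normSq_apply,
      Complex.sub_re, Complex.sub_im, Complex.one_re, Complex.one_im]
    nlinarith
  exact (sq_le_sq₀ (norm_nonneg _) (norm_nonneg _)).1 h1

private theorem one_le_norm {w : ℂ} (hw : 1 ≤ |w.re|) : 1 ≤ ‖w‖ :=
  hw.trans (Complex.abs_re_le_norm w)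

private theorem inv_sq_le {w : ℂ} (hw : 1 ≤ |w.re|) : ‖(w ^ 2)⁻¹‖ ≤ 1 := by
  rw [norm_inv, norm_pow]
  exact inv_le_one_of_one_le₀ (one_le_pow₀ (one_le_norm hw))

/-- the inverse of the square of `w' - 1` -/
private theorem on_wp {n : ℕ} (hn : 3 ≤ n) (X1 : ℝ) :
    OnLine ((n : ℝ) + 1 / 2) 0 X1 (fun s t => ((wp s t - 1) ^ 2)⁻¹) := by
  have hn' : (3 : ℝ) ≤ n := by exact_mod_cast hn
  refine OnLine.of_wp (f := fun w => ((w - 1) ^ 2)⁻¹) (x := (n : ℝ) - 1) (y := X1 + n - 1)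
    (by linarith) (by linarith) ?_ ?_
  · intro w hw
    have h0 : w - 1 ≠ 0 := by
      intro h
      have h1 : (w - 1).re = 0 := by rw [h]; rfl
      rw [Complex.sub_re, Complex.one_re] at h1
      have := hw.1
      linarith
    apply DifferentiableAt.differentiableWithinAt
    fun_prop (disch := exact pow_ne_zero 2 h0)
  · refine ⟨0, 1, le_rfl, zero_le_one, fun w hw _ => ?_⟩
    rw [Real.rpow_zero, mul_one]
    apply inv_sq_le
    rw [Complex.sub_re, Complex.one_re]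
    exact le_abs.2 (Or.inl (by linarith))

/-- the inverse of the square of `w` -/
private theorem on_ww {n : ℕ} {X1 : ℝ} (hX : X1 ≤ n - 1) :
    OnLine ((n : ℝ) + 1 / 2) 0 X1 (fun s t => ((ww t s - 1) ^ 2)⁻¹) := by
  have h1 : (fun s t => ((ww t s - 1) ^ 2)⁻¹) = fun s t => (fun w : ℂ => (w ^ 2)⁻¹) (ww s t) := by
    funext s t
    rw [ww_swap, neg_sq]
  rw [h1]
  refine OnLine.of_ww (f := fun w : ℂ => (w ^ 2)⁻¹) (σ := (n : ℝ) + 1 / 2) (x0 := 0) (X1 := X1)
    (x := -(n : ℝ)) (y := -1) (by linarith) (by linarith) ?_ ?_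
  · intro w hw
    have h0 : w ≠ 0 := by
      intro h
      have h1 : w.re = 0 := by rw [h]; rfl
      have := hw.2
      linarith
    apply DifferentiableAt.differentiableWithinAt
    fun_prop (disch := exact pow_ne_zero 2 h0)
  · refine ⟨0, 1, le_rfl, zero_le_one, fun w _ hw => ?_⟩
    rw [Real.rpow_zero, mul_one]
    apply inv_sq_le
    exact le_abs.2 (Or.inr (by linarith))

private theorem on_quot {n : ℕ} {X1 : ℝ} (hX : X1 ≤ n - 1) :
    OnLine ((n : ℝ) + 1 / 2) 0 X1 (fun s t => (ww s t) ^ 2 * ((ww s t - 1) ^ 2)⁻¹) := by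
  refine OnLine.of_ww (f := fun w => w ^ 2 * ((w - 1) ^ 2)⁻¹) (x := -(n : ℝ)) (y := -1)
    (by linarith) (by linarith) ?_ ?_
  · intro w hw
    have h0 : w - 1 ≠ 0 := by
      intro h
      have h1 : (w - 1).re = 0 := by rw [h]; rfl
      rw [Complex.sub_re, Complex.one_re] at h1
      have := hw.2
      linarith
    apply DifferentiableAt.differentiableWithinAt
    fun_prop (disch := exact pow_ne_zero 2 h0)
  · refine ⟨0, 1, le_rfl, zero_le_one, fun w _ hw => ?_⟩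
    rw [Real.rpow_zero, mul_one, norm_mul, norm_inv, norm_pow, norm_pow, ← div_eq_mul_inv]
    apply div_le_one_of_le₀
    · exact pow_le_pow_left₀ (norm_nonneg _) (norm_le_sub_one (by linarith)) 2
    · positivity

private theorem cpow_cont {q : ℕ} (hq : 101 ≤ q) {f : ℂ → ℂ} (hf : Differentiable ℂ f) :
    Differentiable ℂ fun z => (q : ℂ) ^ (f z) := by
  have hq0 : (q : ℂ) ≠ 0 := by
    have : q ≠ 0 := by omega
    exact_mod_cast this
  intro z
  exact (hf z).const_cpow (Or.inl hq0)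

private theorem on_qt {q : ℕ} (hq : 101 ≤ q) (σ x0 X1 : ℝ) :
    OnLine σ x0 X1 (fun _ t => ((q : ℂ) ^ t)⁻¹) := by
  have hqr : (101 : ℝ) ≤ q := by exact_mod_cast hq
  have hq0 : (q : ℂ) ≠ 0 := by
    have : q ≠ 0 := by omega
    exact_mod_cast this
  refine OnLine.of_snd (f := fun t => ((q : ℂ) ^ t)⁻¹) ?_ ?_
  · have h := cpow_cont hq (f := fun z : ℂ => z) differentiable_id
    intro t _
    refine DifferentiableAt.differentiableWithinAt ((h t).inv ?_)
    exact (Complex.cpow_ne_zero_iff).2 (Or.inl hq0)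
  · refine ⟨0, (q : ℝ) ^ (-x0), le_refl _, by positivity, fun t ht _ => ?_⟩
    rw [Real.rpow_zero, mul_one, norm_inv, Complex.norm_natCast_cpow_of_pos (by omega),
      ← Real.rpow_neg (by positivity)]
    exact Real.rpow_le_rpow_of_exponent_le (by linarith) (by linarith)

private theorem on_nd {q : ℕ} (hq : 101 ≤ q) {n : ℕ} (hn : 3 ≤ n) (x0 X1 : ℝ) :
    OnLine ((n : ℝ) + 1 / 2) x0 X1 (fun s _ => (nd q s)⁻¹) := by
  have hnr : (3 : ℝ) ≤ n := by exact_mod_cast hn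
  obtain ⟨σ, hσ⟩ : ∃ σ : ℝ, σ = (n : ℝ) + 1 / 2 := ⟨_, rfl⟩
  rw [← hσ]
  have hre : ∀ y : ℝ, ((σ : ℂ) + y * Complex.I).re = σ := fun y => by simp
  refine OnLine.of_fst (f := fun s => (nd q s)⁻¹) ?_ ?_
  · have h : Continuous (nd q) := by
      have h1 := (cpow_cont hq (f := fun s : ℂ => 2 * (s - 2)) (by fun_prop)).continuous
      unfold nd
      exact continuous_const.mul (continuous_const.sub h1)
    refine Continuous.inv₀ (h.comp (by fun_prop)) fun y => ?_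
    have h2 := nd_norm hq (s := (σ : ℂ) + y * Complex.I) (by rw [hre, hσ]; linarith)
    intro h0
    have h0' : nd q ((σ : ℂ) + y * Complex.I) = 0 := h0
    rw [h0', norm_zero] at h2
    linarith
  · refine ⟨0, 1, le_refl _, zero_le_one, fun s hs => ?_⟩
    rw [Real.rpow_zero, mul_one, norm_inv]
    exact inv_le_one_of_one_le₀ (nd_norm hq (by rw [hs, hσ]; linarith))

private theorem on_pw {q : ℕ} (hq : 101 ≤ q) (σ x0 X1 : ℝ) {f : ℂ → ℂ} (hf : Differentiable ℂ f)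
    (b : ℝ) (hb : ∀ s : ℂ, s.re = σ → (f s).re = b) :
    OnLine σ x0 X1 (fun s _ => ((q : ℂ) ^ (f s))⁻¹) := by
  have hq0 : (q : ℂ) ≠ 0 := by
    have : q ≠ 0 := by omega
    exact_mod_cast this
  refine OnLine.of_fst (f := fun s => ((q : ℂ) ^ (f s))⁻¹) ?_ ?_
  · have h := (cpow_cont hq hf).continuous
    refine Continuous.inv₀ (h.comp (by fun_prop)) fun y => ?_
    exact (Complex.cpow_ne_zero_iff).2 (Or.inl hq0)
  · refine ⟨0, (q : ℝ) ^ (-b), le_refl _, by positivity, fun s hs => ?_⟩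
    rw [Real.rpow_zero, mul_one, norm_inv, Complex.norm_natCast_cpow_of_pos (by omega),
      ← Real.rpow_neg (by positivity), hb s hs]

private theorem on_ndt (τ : Ty) {q : ℕ} (hq : 101 ≤ q) {n : ℕ} (hn : 3 ≤ n) (x0 X1 : ℝ) :
    OnLine ((n : ℝ) + 1 / 2) x0 X1 (fun s t => (ndt τ q s t)⁻¹) := by
  cases τ
  · have h : (fun s t => (ndt Ty.s q s t)⁻¹) = fun s t => (nd q s)⁻¹ * ((q : ℂ) ^ t)⁻¹ := by
      funext s t
      exact mul_inv _ _
    rw [h]
    exact (on_nd hq hn x0 X1).mul (on_qt hq _ _ _)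
  · have h : (fun s t => (ndt Ty.r q s t)⁻¹) = fun (s _ : ℂ) =>
        (2 * (Real.sqrt q : ℂ))⁻¹ * ((q : ℂ) ^ (4 * s - 3))⁻¹ := by
      funext s t
      exact mul_inv _ _
    rw [h]
    refine (OnLine.const _).mul (on_pw hq _ x0 X1 (f := fun s => 4 * s - 3) (by fun_prop)
      (4 * ((n : ℝ) + 1 / 2) - 3) fun s hs => ?_)
    simp [hs]
  · have h : (fun s t => (ndt Ty.i q s t)⁻¹) = fun (s t : ℂ) =>
        ((-2 : ℂ))⁻¹ * (((q : ℂ) ^ t)⁻¹ * ((q : ℂ) ^ (3 * s - 7 / 2))⁻¹) := by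
      funext s t
      have h1 : ndt Ty.i q s t = -2 * ((q : ℂ) ^ t * (q : ℂ) ^ (3 * s - 7 / 2)) := rfl
      rw [h1, mul_inv, mul_inv]
    rw [h]
    refine (OnLine.const _).mul ((on_qt hq _ _ _).mul (on_pw hq _ x0 X1
      (f := fun s => 3 * s - 7 / 2) (by fun_prop) (3 * ((n : ℝ) + 1 / 2) - 7 / 2) fun s hs => ?_))
    have e1 : (7 / 2 : ℂ) = ((7 / 2 : ℝ) : ℂ) := by push_cast; rfl
    rw [Complex.sub_re, e1, Complex.ofReal_re]
    simp [hs]

private theorem on_prod {ι : Type} (u : Finset ι) {σ x0 X1 : ℝ} {f : ι → ℂ → ℂ → ℂ}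
    (h : ∀ i ∈ u, OnLine σ x0 X1 (f i)) : OnLine σ x0 X1 (fun x y => ∏ i ∈ u, f i x y) := by
  classical
  induction u using Finset.induction_on with
  | empty =>
    simp only [Finset.prod_empty]
    exact OnLine.const 1
  | insert a s ha ih =>
    simp only [Finset.prod_insert ha]
    exact (h a (Finset.mem_insert_self a s)).mul
      (ih fun i hi => h i (Finset.mem_insert_of_mem hi))

theorem exists_Vt (hS : IsSys0 S) (hG : IsKn S Kn) (hL : IsLocT S H Kn M0 e p q lam ty)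
    (hR : 1 ≤ R) (hY : IsY S Kn R Y) (hB : Beta S R) :
    ∃ n0 : ℕ, ∀ n : ℕ, n0 ≤ n → ∀ X1 : ℝ, X1 ≤ n - 1 →
      ∃ (P : Polynomial ℂ) (V : ℂ → ℂ → ℂ), P ≠ 0 ∧ OnLine ((n : ℝ) + 1 / 2) 0 X1 V ∧
      ∀ s t : ℂ, s.re = (n : ℝ) + 1 / 2 → R < t.re → t.re < X1 →
        V s t = P.eval (ww s t) * Gst S e p q lam ty s t := by
  classical
  have hW0 : ∀ g : S.G, ∃ n0 : ℕ, g ∈ H → ∀ n : ℕ, n0 ≤ n → ∀ x0 X1 : ℝ, ∃ W : ℂ → ℂ → ℂ,
      OnLine ((n : ℝ) + 1 / 2) x0 X1 W ∧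
      ∀ s t : ℂ, s.re = (n : ℝ) + 1 / 2 → R < t.re → x0 < t.re → t.re < X1 →
        W s t = ∑ f : κ → Bool, (∏ i, tht (ty i) (q i) (lam i) (f i) s t) *
          Y (g * cl e p fun i => pr (ty i) (f i)) s t := by
    intro g
    by_cases hg : g ∈ H
    · obtain ⟨n0, h⟩ := exists_Wf hS hG hL hR hY hB hg
      exact ⟨n0, fun _ => h⟩
    · exact ⟨0, fun h => absurd h hg⟩
  choose n0 hn0 using hW0
  refine ⟨max (Finset.univ.sup n0) (⌈R⌉₊ + 4), ?_⟩
  intro n hn X1 hX1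
  have hnR : ⌈R⌉₊ + 4 ≤ n := (le_max_right _ _).trans hn
  have hn3 : 3 ≤ n := by omega
  have hRn : R + 4 ≤ n := by
    have h1 := Nat.le_ceil R
    have h2 : ((⌈R⌉₊ + 4 : ℕ) : ℝ) ≤ n := by exact_mod_cast hnR
    push_cast at h2
    linarith
  have hW1 : ∀ g : S.G, ∃ W : ℂ → ℂ → ℂ, g ∈ H → (OnLine ((n : ℝ) + 1 / 2) 0 X1 W ∧
      ∀ s t : ℂ, s.re = (n : ℝ) + 1 / 2 → R < t.re → t.re < X1 →
        W s t = ∑ f : κ → Bool, (∏ i, tht (ty i) (q i) (lam i) (f i) s t) *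
          Y (g * cl e p fun i => pr (ty i) (f i)) s t) := by
    intro g
    by_cases hg : g ∈ H
    · have hle : n0 g ≤ n :=
        ((Finset.le_sup (f := n0) (Finset.mem_univ g)).trans (le_max_left _ _)).trans hn
      obtain ⟨W, h1, h2⟩ := hn0 g hg n hle 0 X1
      exact ⟨W, fun _ => ⟨h1, fun s t hs ht ht1 => h2 s t hs ht (by linarith) ht1⟩⟩
    · exact ⟨fun _ _ => 0, fun h => absurd h hg⟩
  choose W hW using hW1
  obtain ⟨P, Nf, hP, hNd, hNb, hNM⟩ := hL.M_inv ((n : ℝ) + 3 / 2) (by linarith)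
  refine ⟨P, fun s t => ((((wp s t - 1) ^ 2)⁻¹ * ((ww t s - 1) ^ 2)⁻¹) *
    (∏ i, (ndt (ty i) (q i) s t)⁻¹)) *
    ((((S.cU : ℂ) ^ 2) * ((ww s t) ^ 2 * ((ww s t - 1) ^ 2)⁻¹)) *
      (∑ g : S.G, if g ∈ H then Nf g (ww s t) * W g s t else 0)), hP, ?_, ?_⟩
  · -- regularity
    have hNf : ∀ g, OnLine ((n : ℝ) + 1 / 2) 0 X1 (fun s t => Nf g (ww s t)) := by
      intro g
      refine OnLine.of_ww (x := -(n : ℝ)) (y := -1) (by linarith) (by linarith) ?_ ?_
      · refine (hNd g).mono ?_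
        rintro w ⟨h1, h2⟩
        exact ⟨by linarith, by linarith⟩
      · obtain ⟨A, C, hA, hC, h⟩ := hNb g (-(n : ℝ)) (-1) (by linarith) (by norm_num)
        exact ⟨A, C, hA, hC, fun w h1 h2 => h w h1.le h2.le⟩
    have hsum1 : OnLine ((n : ℝ) + 1 / 2) 0 X1
        (fun s t => ∑ g : S.G, if g ∈ H then Nf g (ww s t) * W g s t else 0) := by
      refine OnLine.sum Finset.univ
        (f := fun g s t => if g ∈ H then Nf g (ww s t) * W g s t else 0) ?_
      intro g _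
      by_cases hg : g ∈ H
      · simp only [hg, if_true]
        exact (hNf g).mul (hW g hg).1
      · simp only [hg, if_false]
        exact OnLine.const 0
    have hprod : OnLine ((n : ℝ) + 1 / 2) 0 X1
        (fun s t => ∏ i, (ndt (ty i) (q i) s t)⁻¹) :=
      on_prod Finset.univ (f := fun i s t => (ndt (ty i) (q i) s t)⁻¹)
        (fun i _ => on_ndt (ty i) (hL.hq i) hn3 _ _)
    exact (((on_wp hn3 X1).mul (on_ww hX1)).mul hprod).mul
      (((OnLine.const _).mul (on_quot hX1)).mul hsum1)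
  · -- agreement
    intro s t hs ht htX
    have hsR : R < s.re := by rw [hs]; linarith
    have hs3 : 3 ≤ s.re := by
      have : (3 : ℝ) ≤ n := by exact_mod_cast hn3
      rw [hs]
      linarith
    have hwre : (ww s t).re = t.re - n := by
      have e1 : (1 / 2 : ℂ) = ((1 / 2 : ℝ) : ℂ) := by push_cast; rfl
      unfold ww
      rw [Complex.add_re, Complex.sub_re, hs, e1, Complex.ofReal_re]
      ring
    have hw0 : (ww s t).re < 0 := by rw [hwre]; linarith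
    have hwX : -((n : ℝ) + 3 / 2) < (ww s t).re := by rw [hwre]; linarith
    have hsum : (∑ g : S.G, if g ∈ H then Nf g (ww s t) * W g s t else 0) =
        ∑ g : S.G, (if g ∈ H then Nf g (ww s t) *
          (∑ f : κ → Bool, (∏ i, tht (ty i) (q i) (lam i) (f i) s t) *
            Y (g * cl e p fun i => pr (ty i) (f i)) s t) else 0) := by
      apply Finset.sum_congr rfl
      intro g _
      by_cases hg : g ∈ H
      · rw [if_pos hg, if_pos hg, (hW g hg).2 s t hs ht htX]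
      · rw [if_neg hg, if_neg hg]
    have hid := sum_id hS hL hY hB (P := P) (Nf := Nf) hsR ht hs3 hw0
      (fun h hh => hNM h hh _ hwX hw0)
    dsimp only
    rw [hsum, hid]
    unfold Gst Gqc
    have hone : (∏ i, (ndt (ty i) (q i) s t)⁻¹) *
        (∏ i, (ndt (ty i) (q i) s t)) = 1 := by
      rw [← Finset.prod_mul_distrib]
      apply Finset.prod_eq_one
      intro i _
      exact inv_mul_cancel₀ (ndt_ne (ty i) (hL.hq i) hs3)
    rw [Finset.mul_sum, Finset.mul_sum, Finset.mul_sum]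
    apply Finset.sum_congr rfl
    intro k _
    rw [Finset.prod_mul_distrib (s := Finset.univ)
      (f := fun i => ndt (ty i) (q i) s t) (g := fun i => nut (ty i) (q i) (lam i) (k i) s t)]
    rw [div_eq_mul_inv, mul_inv]
    calc _ = ((∏ i, (ndt (ty i) (q i) s t)⁻¹) *
          (∏ i, (ndt (ty i) (q i) s t))) * (((wp s t - 1) ^ 2)⁻¹ * ((ww t s - 1) ^ 2)⁻¹ *
          P.eval (ww s t) * (∏ i, nut (ty i) (q i) (lam i) (k i) s t) * YR S (cl e p k) t s) := by ring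
      _ = _ := by
        rw [hone]
        ring

end Pool.Agent.MX
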