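import Pool.Agent.MX.A.Kf2
import Pool.Agent.MX.A.NuA
import Pool.Agent.LD.A.Line

/-!
# MX/A-Wf: the combination at the reflected point, on the lines `Re s = n + 1/2` (MD/A-Wf)
-/

namespace Pool.Agent.MX

open Pool.Agent.QD Pool.Agent.QD.SysD Pool.Agent.LD Pool.Agent.MD

variable {S : SysD} {H : Subgroup S.G} {Kn : Set S.G} {M0 : S.G → ℂ → ℂ} {κ : Type} [Fintype κ]
  [DecidableEq κ] {e p : κ → S.G} {q : κ → ℕ} {lam : κ → ℝ} {ty : κ → Ty} {R : ℝ} {Y : S.G → ℂ → ℂ → ℂ}

private theorem wf_cpow {q : ℕ} (hq : 101 ≤ q) {f : ℂ → ℂ} (hf : Differentiable ℂ f) :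
    Differentiable ℂ fun z => (q : ℂ) ^ (f z) := by
  have hq0 : (q : ℂ) ≠ 0 := by
    have : q ≠ 0 := by omega
    exact_mod_cast this
  intro z
  exact (hf z).const_cpow (Or.inl hq0)

private theorem wf_norm {q : ℕ} (hq : 101 ≤ q) (z : ℂ) : ‖(q : ℂ) ^ z‖ = (q : ℝ) ^ z.re := by
  exact Complex.norm_natCast_cpow_of_pos (by omega) z

private theorem wf_line_re (σ y : ℝ) : ((σ : ℂ) + y * Complex.I).re = σ := by simp

private theorem wf_line_cont (σ : ℝ) : Continuous fun y : ℝ => (σ : ℂ) + y * Complex.I := by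
  fun_prop

private theorem wf_prod {σ x0 X1 : ℝ} {ι : Type} (s : Finset ι) {f : ι → ℂ → ℂ → ℂ}
    (h : ∀ i ∈ s, OnLine σ x0 X1 (f i)) : OnLine σ x0 X1 (fun x y => ∏ i ∈ s, f i x y) := by
  classical
  induction s using Finset.induction_on with
  | empty =>
    simp only [Finset.prod_empty]
    exact OnLine.const 1
  | insert a s ha ih =>
    simp only [Finset.prod_insert ha]
    exact (h a (Finset.mem_insert_self a s)).mul
      (ih fun i hi => h i (Finset.mem_insert_of_mem hi))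

private theorem wf_ka {σ x0 X1 : ℝ} {q : ℕ} (hq : 101 ≤ q) (lam : ℝ) :
    OnLine σ x0 X1 (fun s _ => ka q lam (2 - s)) := by
  refine OnLine.of_fst (f := fun s => ka q lam (2 - s)) ?_ ?_
  · have h1 := (wf_cpow hq (f := fun s : ℂ => 1 - (2 - s)) (by fun_prop)).continuous
    have h2 := (wf_cpow hq (f := fun s : ℂ => 3 - 2 * (2 - s)) (by fun_prop)).continuous
    have h : Continuous (fun s : ℂ => ka q lam (2 - s)) := by
      unfold ka
      exact (continuous_const.add (continuous_const.mul h1)).add h2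
    exact h.comp (wf_line_cont σ)
  · refine ⟨0, 1 + |lam| * (q : ℝ) ^ (σ - 1) + (q : ℝ) ^ (2 * σ - 1), le_refl _, by positivity,
      fun s hs => ?_⟩
    rw [Real.rpow_zero, mul_one]
    unfold ka
    refine (norm_add_le _ _).trans (add_le_add ((norm_add_le _ _).trans (add_le_add ?_ ?_)) ?_)
    · rw [norm_one]
    · rw [norm_mul, wf_norm hq, Complex.norm_real, Real.norm_eq_abs]
      have e : (1 - (2 - s)).re = σ - 1 := by
        simp only [Complex.sub_re, Complex.one_re, Complex.re_ofNat, hs]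
        ring
      rw [e]
    · rw [wf_norm hq]
      have e : (3 - 2 * (2 - s)).re = 2 * σ - 1 := by
        simp only [Complex.sub_re, Complex.mul_re, Complex.re_ofNat, Complex.im_ofNat, hs]
        ring
      rw [e]

private theorem wf_gd {σ x0 X1 : ℝ} {q : ℕ} (hq : 101 ≤ q) (lam : ℝ) (k : LC) :
    OnLine σ x0 X1 (fun s _ => gd q lam k (2 - s)) := by
  unfold gd
  split_ifs
  · exact OnLine.const 1
  · exact wf_ka hq lam
  · exact wf_ka hq (-lam)

theorem refl_id (hL : IsLocT S H Kn M0 e p q lam ty) (hY : IsY S Kn R Y) {g : S.G} (hg : g ∈ H)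
    (s t : ℂ) (hs : 3 / 2 < s.re) (ht : R < t.re)
    (h0 : S.GG (g * cl e p fun _ => (false, true)) (2 - s) ≠ 0) :
    K1t S Y e p q ty g (2 - s) t * (S.GG (g * cl e p fun _ => (false, true)) (2 - s))⁻¹ *
        ∏ i, (gd (q i) (lam i) (pr (ty i) true) (2 - s) * gd (q i) (lam i) (pr (ty i) false) (2 - s)) =
      ∑ f : κ → Bool, (∏ i, tht (ty i) (q i) (lam i) (f i) s t) *
        Y (g * cl e p fun i => pr (ty i) (f i)) s t := by
  have hre : (2 - s).re < 1 / 2 := by
    simp only [Complex.sub_re, Complex.re_ofNat]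
    linarith
  have hww : ww (2 - s) t = wp s t := by
    unfold ww wp
    ring
  unfold K1t
  rw [Finset.sum_mul, Finset.sum_mul]
  refine Finset.sum_congr rfl fun f _ => ?_
  rw [hY.fe _ (kn_pr hL hg f) (2 - s) t hre ht, sub_sub_cancel, hww]
  have h1 := hL.GG_rel g hg (fun i => pr (ty i) (f i)) (fun i => pr_ne (ty i) (f i)) (2 - s) hre
  have h2 : ∏ i, (gd (q i) (lam i) (pr (ty i) true) (2 - s) *
        gd (q i) (lam i) (pr (ty i) false) (2 - s)) =
      (∏ i, gd (q i) (lam i) (pr (ty i) (f i)) (2 - s)) *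
        ∏ i, gd (q i) (lam i) (pr (ty i) (!f i)) (2 - s) := by
    rw [← Finset.prod_mul_distrib]
    refine Finset.prod_congr rfl fun i _ => ?_
    cases f i
    · exact mul_comm _ _
    · rfl
  have h3 : ∏ i, tht (ty i) (q i) (lam i) (f i) s t = (∏ i, cx (ty i) (q i) (f i) (wp s t)) *
      ((∏ i, gn (q i) (lam i) (pr (ty i) (f i)) (2 - s)) *
        ∏ i, gd (q i) (lam i) (pr (ty i) (!f i)) (2 - s)) := by
    rw [← Finset.prod_mul_distrib, ← Finset.prod_mul_distrib]
    refine Finset.prod_congr rfl fun i _ => ?_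
    unfold tht
    rw [mul_assoc]
  rw [h2, h3]
  generalize (∏ i, cx (ty i) (q i) (f i) (wp s t)) = A
  generalize (∏ i, gd (q i) (lam i) (pr (ty i) (f i)) (2 - s)) = B at h1 ⊢
  generalize (∏ i, gn (q i) (lam i) (pr (ty i) (f i)) (2 - s)) = D at h1 ⊢
  generalize (∏ i, gd (q i) (lam i) (pr (ty i) (!f i)) (2 - s)) = F
  generalize S.GG (g * cl e p fun i => pr (ty i) (f i)) (2 - s) = u at h1 ⊢
  generalize S.GG (g * cl e p fun _ => (false, true)) (2 - s) = v at h1 h0 ⊢
  generalize Y (g * cl e p fun i => pr (ty i) (f i)) s t = y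
  calc A * (u * y) * v⁻¹ * (B * F) = A * ((u * B) * v⁻¹ * F) * y := by ring
    _ = A * ((v * v⁻¹) * D * F) * y := by rw [h1]; ring
    _ = A * (D * F) * y := by rw [mul_inv_cancel₀ h0, one_mul]

theorem exists_Wf (hS : IsSys0 S) (hG : IsKn S Kn) (hL : IsLocT S H Kn M0 e p q lam ty)
    (hR : 1 ≤ R) (hY : IsY S Kn R Y) (hB : Beta S R) {g : S.G} (hg : g ∈ H) :
    ∃ n0 : ℕ, ∀ n : ℕ, n0 ≤ n → ∀ x0 X1 : ℝ, ∃ W : ℂ → ℂ → ℂ,
      OnLine ((n : ℝ) + 1 / 2) x0 X1 W ∧
      ∀ s t : ℂ, s.re = (n : ℝ) + 1 / 2 → R < t.re → x0 < t.re → t.re < X1 →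
        W s t = ∑ f : κ → Bool, (∏ i, tht (ty i) (q i) (lam i) (f i) s t) *
          Y (g * cl e p fun i => pr (ty i) (f i)) s t := by
  obtain ⟨n1, hn1⟩ := hG.GG_inv (g * cl e p fun _ => (false, true))
  refine ⟨max n1 3, fun n hn x0 X1 => ?_⟩
  have hn3 : 3 ≤ n := (le_max_right _ _).trans hn
  have hnr : (3 : ℝ) ≤ n := by exact_mod_cast hn3
  obtain ⟨A1, C1, hA1, hC1, hinv⟩ := hn1 n ((le_max_left _ _).trans hn)
  obtain ⟨σ, hσ⟩ : ∃ σ : ℝ, σ = (n : ℝ) + 1 / 2 := ⟨_, rfl⟩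
  rw [← hσ] at hinv
  obtain ⟨E, hE1, hE2, hE3⟩ := exists_E hS hL hR hY hB hg (1 - σ) (σ + 1) x0 X1
  have F3 : OnLine σ x0 X1 (fun s _ => ∏ i, (gd (q i) (lam i) (pr (ty i) true) (2 - s) * gd (q i) (lam i) (pr (ty i) false) (2 - s))) :=
    wf_prod (f := fun i s _ => gd (q i) (lam i) (pr (ty i) true) (2 - s) *
        gd (q i) (lam i) (pr (ty i) false) (2 - s)) Finset.univ
      fun i _ => (wf_gd (hL.hq i) (lam i) _).mul (wf_gd (hL.hq i) (lam i) _)
  have F4 : OnLine σ x0 X1 (fun s _ => (S.GG (g * cl e p fun _ => (false, true)) (2 - s))⁻¹) := by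
    refine OnLine.of_fst (f := fun s => (S.GG (g * cl e p fun _ => (false, true)) (2 - s))⁻¹) ?_ ?_
    · have hre : ∀ y : ℝ, (2 - ((σ : ℂ) + y * Complex.I)).re < 1 / 2 := by
        intro y
        simp only [Complex.sub_re, Complex.re_ofNat, wf_line_re]
        rw [hσ]
        linarith
      refine Continuous.inv₀ ?_ fun y => (hinv _ (wf_line_re σ y)).1
      rw [continuous_iff_continuousAt]
      intro y
      have hopen : IsOpen {s : ℂ | s.re < 1 / 2} := isOpen_lt Complex.continuous_re continuous_const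
      have h1 : ContinuousAt (S.GG (g * cl e p fun _ => (false, true)))
          (2 - ((σ : ℂ) + y * Complex.I)) :=
        ((hG.GG_diff (g * cl e p fun _ => (false, true))).differentiableAt
          (hopen.mem_nhds (hre y))).continuousAt
      have h2 : ContinuousAt (fun y : ℝ => (2 : ℂ) - ((σ : ℂ) + y * Complex.I)) y :=
        (continuous_const.sub (wf_line_cont σ)).continuousAt
      exact ContinuousAt.comp (f := fun y : ℝ => (2 : ℂ) - ((σ : ℂ) + y * Complex.I))
        (g := S.GG (g * cl e p fun _ => (false, true))) h1 h2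
    · exact ⟨A1, C1, hA1, hC1, fun s hs => (hinv s hs).2⟩
  obtain ⟨A2, C2, hA2, hC2, hEb⟩ := hE2
  have hσ2 : 3 / 2 < σ := by rw [hσ]; linarith
  have F8 : OnLine σ x0 X1 (fun s t => E (2 - s) t) := by
    refine OnLine.of_refl hE1 (fun s t hs h1 h2 => ?_) ⟨A2, C2, hA2, hC2, fun s t hs h1 h2 => ?_⟩
    · exact ⟨by simp only [hs]; linarith, by simp only [hs]; linarith, h1, h2⟩
    · exact hEb s t (by rw [hs]; linarith) (by rw [hs]; linarith) h1 h2
  refine ⟨fun s t => (E (2 - s) t * (S.GG (g * cl e p fun _ => (false, true)) (2 - s))⁻¹) *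
    ∏ i, (gd (q i) (lam i) (pr (ty i) true) (2 - s) * gd (q i) (lam i) (pr (ty i) false) (2 - s)), ?_, ?_⟩
  · rw [← hσ]
    exact (F8.mul F4).mul F3
  · intro s t hs ht h1 h2
    rw [← hσ] at hs
    have h2re : (2 - s).re = 2 - σ := by simp [hs]
    have e2 : E (2 - s) t = K1t S Y e p q ty g (2 - s) t :=
      hE3 (2 - s) t (by rw [h2re]; linarith) (by rw [h2re]; linarith) ht h2 h1
    show (E (2 - s) t * (S.GG (g * cl e p fun _ => (false, true)) (2 - s))⁻¹) *
      ∏ i, (gd (q i) (lam i) (pr (ty i) true) (2 - s) * gd (q i) (lam i) (pr (ty i) false) (2 - s)) = _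
    rw [e2]
    exact refl_id hL hY hg s t (by rw [hs]; exact hσ2) ht (hinv s hs).1

end Pool.Agent.MX
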